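import Mathlib
import Pool.Agent.U79.MO.MQ2

/-!
# The law and the mean of the ranks over multiquadratic number fields in families of quadratic twists

Let `K = ℚ(√d : d ∈ S)` be any multiquadratic number field (`S` a finite set of nonzero integers,
positive or negative; for example `K = ℚ`, or any quadratic field, real or imaginary), and
`E : y² = x³ + a x² + b x` with integers `a`, `b` such that neither `b` nor `c = a² - 4 b` is a square.
`E_D` is the quadratic twist of `E` by `D`, in the short form of the problem: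
`y² = x³ + A D² x + B D³`, `A = 27 (3 b - a²)`, `B = 27 (2 a³ - 9 a b)`. As in the problem the equations
are ordered by the heights of the coefficients: `|A| D² ≤ X` and `|B| D³ ≤ X`. For `T ⊆ S` let `E_D^T` be the
twist of `E_D` by `∏_{d ∈ T} d`, over `ℚ`.

Put `M = ∏_{d ∈ S} d`. A prime is split if it is `1` modulo `8` and a nonzero square modulo all the odd
primes dividing `b c M`, and inert if it is odd, does not divide `M` and neither `b` nor `c` is a square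
modulo it. `D` runs over the products of different split and inert primes, any number of each,
with `D = 1` modulo `8` and `D` a square modulo all the odd primes dividing `b c M`.

`s_T` is the Selmer rank (descent by isogenies of degree two: `2 ^ (s + 2)` is the product of the orders of
the two Selmer groups over `ℚ`) of the twist of `E` by `∏_{d ∈ T} d`, and `R₀` the sum of all `s_T`, `T ⊆ S`.
They do not depend on `D`. Let `n = #S` and `c_k = ∏_{i ≥ 0} (1 - 2^{-(2i+1)}) / ∏_{1 ≤ i ≤ k} (2 ^ i - 1)`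
(a probability law: the sum of the `c_k` is `1`).

**Theorem.** There is ONE number `k = k(D)` for all the `2 ^ n` twists `E_D^T` of each curve, such that
* the Selmer rank of `E_D^T` is `s_T + 2 k` for all `T ⊆ S`: the `2 ^ n` Selmer ranks move together;
* `k ≤ rank E_D^T(ℚ) + dim Ш(E_D^T/ℚ)[2] ≤ s_T + 2 k` for all `T ⊆ S`; if `s_T = 0` then `E_D^T(ℚ)` is finite
  and `Ш(E_D^T/ℚ)[2^∞] = 0` exactly if `k = 0`;
* the rank of `E_D` over `K` is at most `R₀ + 2 ^ (n + 1) k`;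
* `k(D) = j` for exactly the proportion `c_j` of the family, for every `j`.
So (1) for every `j` the rank of `E_D` over `K` is at most `R₀ + 2 ^ (n + 1) j` for at least the proportion
`c₀ + ... + c_j` of the family (lower limit), and this is at least `1 - 2 · 2 ^ (-j (j + 1) / 2)`;
(2) ALL MOMENTS of the rank over `K` are bounded: for nondecreasing `φ` of polynomial growth the mean of
`φ(rank E_D(K))` is at most `∑ φ(R₀ + 2 ^ (n + 1) j) c_j + ε` for large `X`; the mean rank over `K` is at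
most `R₀ + 1.5294 · 2 ^ n`; (3) if `R₀ = 0`, then `E_D` has rank `0` over `K` and all the twists `E_D^T`,
`T ⊆ S`, have finite `E_D^T(ℚ)` and `Ш(E_D^T/ℚ)[2^∞] = 0`, for a proportion of the family which tends
exactly to `c₀ > 0.4194`.

The law of the coranks is the project GE/GDK of helper115: helper115 (plan, descent, statements),
helper171 (the lower bound for `2 ^ rank · #Ш[2]`), helper295, helper439, helper2, helper643, helper674,
helper234, helper158, helper998, helper798, helper756, helper79, helper958, helper388 (the law of the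
coranks of the matrices for a general modulus), helper796 (the bound of the rank by the Selmer groups),
helper739 (good primes). The quadratic formula for the ranks over number fields is from the starting
library (`Y682.XD`, `Y888.XD`). New here (helper79): the twists by all the divisors of `M` have the same
corank, the fields `K`, and the convergence of all moments of the corank.
-/

set_option autoImplicit false

open scoped Classical

namespace Pool.Agent.Results.MP_81dc49_nt.RanksOverMultiquadraticFields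

open Filter Topology
open Pool.Agent.TH841.NF.D (rk Sha)

/-- the coefficient `A` -/
def coefA (a b : ℤ) : ℤ := 27 * (3 * b - a ^ 2)

/-- the coefficient `B` -/
def coefB (a b : ℤ) : ℤ := 27 * (2 * a ^ 3 - 9 * a * b)

/-- the curve `y² = x³ + A D² x + B D³` over `K`: the quadratic twist by `D` of
`y² = x³ + a x² + b x` -/
def E (a b : ℤ) (D : ℕ) (K : Type) [Field K] : WeierstrassCurve K :=
  ⟨0, 0, 0, ((coefA a b * D ^ 2 : ℤ) : K), ((coefB a b * D ^ 3 : ℤ) : K)⟩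

/-- the quartic of `d` has a nontrivial point over `K` -/
def Quartic (K : Type) [Field K] (a b d : ℤ) : Prop :=
  ∃ N M e : K, (M ≠ 0 ∨ e ≠ 0) ∧
    N ^ 2 = (d : K) * M ^ 4 + (a : K) * M ^ 2 * e ^ 2 + (b : K) / (d : K) * e ^ 4

/-- the Selmer group of the isogeny of degree two of `y² = x³ + a x² + b x` -/
def Sel (a b : ℤ) : Set ℤ :=
  {d | Squarefree d ∧ Quartic ℝ a b d ∧ ∀ (p : ℕ) [Fact p.Prime], Quartic ℚ_[p] a b d}

/-- the Selmer rank of `y² = x³ + a x² + b x`: the product of the orders of the Selmer groups of the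
two isogenies of degree two is `2 ^ (s + 2)` -/
noncomputable def s (a b : ℤ) : ℕ :=
  Nat.log 2 ((Sel a b).ncard * (Sel (-2 * a) (a ^ 2 - 4 * b)).ncard) - 2

/-- the sum of the Selmer ranks of the twists by the products of the elements of `S` -/
noncomputable def R₀ (a b : ℤ) (S : Finset ℤ) : ℕ :=
  ∑ T ∈ S.powerset, s (a * ∏ d ∈ T, d) (b * (∏ d ∈ T, d) ^ 2)

/-- `n` is `1` modulo `8` and a nonzero square modulo the odd primes dividing `b (a² - 4 b) M` -/
def Res (a b M : ℤ) (n : ℕ) : Prop := n % 8 = 1 ∧ ∀ l : ℕ, l.Prime → l ≠ 2 →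
  (l : ℤ) ∣ b * (a ^ 2 - 4 * b) * M → ¬ l ∣ n ∧ IsSquare (n : ZMod l)

/-- the inert primes -/
def Inert (a b M : ℤ) (q : ℕ) : Prop := q ≠ 2 ∧ ¬ (q : ℤ) ∣ M ∧ ¬ IsSquare (b : ZMod q) ∧
  ¬ IsSquare ((a ^ 2 - 4 * b : ℤ) : ZMod q)

/-- the class of the numbers `D` -/
def Class (a b M : ℤ) (D : ℕ) : Prop := Squarefree D ∧ Res a b M D ∧
  ∀ p ∈ D.primeFactors, Res a b M p ∨ Inert a b M p

/-- the equations of the family with coefficients of height at most `X`, with the property `P` -/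
def Fam (a b M : ℤ) (P : ℕ → Prop) (X : ℕ) : Set ℕ :=
  {D : ℕ | Class a b M D ∧ |coefA a b * D ^ 2| ≤ X ∧ |coefB a b * D ^ 3| ≤ X ∧ P D}

/-- the proportion of the equations with the property `P` -/
noncomputable def proportion (a b M : ℤ) (P : ℕ → Prop) (X : ℕ) : ℝ :=
  ((Fam a b M P X).ncard : ℝ) / ((Fam a b M (fun _ => True) X).ncard : ℝ)

/-- the mean of `g` over the equations of height at most `X` -/
noncomputable def mean (a b M : ℤ) (g : ℕ → ℝ) (X : ℕ) : ℝ :=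
  (∑ᶠ D ∈ Fam a b M (fun _ => True) X, g D) / ((Fam a b M (fun _ => True) X).ncard : ℝ)

/-- the twist by `t` of `E_D`, over `ℚ` -/
def twist (a b t : ℤ) (D : ℕ) : WeierstrassCurve ℚ := E (a * t) (b * t ^ 2) D ℚ

/-- the dimension of `Ш[2]` -/
noncomputable def shaDim (W : WeierstrassCurve ℚ) : ℕ :=
  Nat.log 2 (Nat.card {x : Sha W // 2 • x = 0})

/-- `W(ℚ)` is finite and `Ш(W/ℚ)[2^∞] = 0` -/
def TrivialTwo (W : WeierstrassCurve ℚ) : Prop :=
  Finite W.toAffine.Point ∧ ∀ (n : ℕ) (x : Sha W), 2 ^ n • x = 0 → x = 0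

/-- a nondecreasing function of polynomial growth -/
def Poly (φ : ℕ → ℝ) : Prop := Monotone φ ∧ ∃ (K : ℝ) (m : ℕ), ∀ n : ℕ, |φ n| ≤ K * ((n : ℝ) + 1) ^ m

/-- the constants -/
noncomputable def c (k : ℕ) : ℝ :=
  (∏' i : ℕ, (1 - (1 / 2 : ℝ) ^ (2 * i + 1))) / ∏ i ∈ Finset.range k, ((2 : ℝ) ^ (i + 1) - 1)

section proof

open Pool.Agent.U79.TF (sr sel2 RK shortK rk_short gc_ne class_many sel2_pow tail_le)
open Pool.Agent.U115.GE (cork twE)
open Pool.Agent.U79.MO (CX)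

variable {a b M : ℤ}

theorem dvd_iff (hM : M ≠ 0) {l : ℕ} (hl : l.Prime) :
    (l : ℤ) ∣ b * M ^ 2 * ((a * M) ^ 2 - 4 * (b * M ^ 2)) ↔ (l : ℤ) ∣ b * (a ^ 2 - 4 * b) * M := by
  have hpi : Prime (l : ℤ) := Nat.prime_iff_prime_int.1 hl
  have e : b * M ^ 2 * ((a * M) ^ 2 - 4 * (b * M ^ 2)) = b * (a ^ 2 - 4 * b) * M ^ 4 := by ring
  rw [e]
  constructor
  · intro h
    rcases hpi.dvd_or_dvd h with h | h
    · exact h.mul_right _
    · exact (hpi.dvd_of_dvd_pow h).mul_left _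
  · intro h
    exact h.trans (mul_dvd_mul_left _ (dvd_pow_self _ (by norm_num)))

theorem res_iff (hM : M ≠ 0) (n : ℕ) :
    Res a b M n ↔ Pool.Agent.U115.GE.Res (a * M) (b * M ^ 2) n := by
  refine and_congr_right fun _ => forall_congr' fun l => ?_
  constructor
  · intro h hl h2 hlb
    exact h hl h2 ((dvd_iff hM hl).1 hlb)
  · intro h hl h2 hlb
    exact h hl h2 ((dvd_iff hM hl).2 hlb)

theorem sq_mul {q : ℕ} [Fact q.Prime] {x : ZMod q} {M : ℤ} (h0 : (M : ZMod q) ≠ 0) :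
    IsSquare (x * (M : ZMod q) ^ 2) ↔ IsSquare x := by
  constructor
  · rintro ⟨t, ht⟩
    refine ⟨t / (M : ZMod q), ?_⟩
    field_simp
    rw [ht]
    ring
  · rintro ⟨t, rfl⟩
    exact ⟨t * (M : ZMod q), by ring⟩

theorem inert_iff {q : ℕ} (hq : q.Prime) :
    Inert a b M q ↔ Pool.Agent.U115.GE.Inert (a * M) (b * M ^ 2) q := by
  have := Fact.mk hq
  have e : (((a * M) ^ 2 - 4 * (b * M ^ 2) : ℤ) : ZMod q) =
      ((a ^ 2 - 4 * b : ℤ) : ZMod q) * (M : ZMod q) ^ 2 := by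
    push_cast
    ring
  have e' : (((b * M ^ 2 : ℤ)) : ZMod q) = (b : ZMod q) * (M : ZMod q) ^ 2 := by
    push_cast
    ring
  unfold Inert Pool.Agent.U115.GE.Inert
  rw [e, e']
  constructor
  · rintro ⟨h1, h2, h3, h4⟩
    have h0 : (M : ZMod q) ≠ 0 := by
      rw [Ne, ZMod.intCast_zmod_eq_zero_iff_dvd]
      exact h2
    exact ⟨hq, h1, fun h => h3 ((sq_mul h0).1 h), fun h => h4 ((sq_mul h0).1 h)⟩
  · rintro ⟨-, h1, h3, h4⟩
    have h0 : (M : ZMod q) ≠ 0 := by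
      intro h
      apply h3
      rw [h]
      exact ⟨0, by ring⟩
    refine ⟨h1, ?_, fun h => h3 ((sq_mul h0).2 h), fun h => h4 ((sq_mul h0).2 h)⟩
    rw [Ne, ZMod.intCast_zmod_eq_zero_iff_dvd] at h0
    exact h0

theorem class_iff (hM : M ≠ 0) (D : ℕ) :
    Class a b M D ↔ Pool.Agent.U115.GE.Class (a * M) (b * M ^ 2) D := by
  refine and_congr_right fun _ => and_congr (res_iff hM D) (forall₂_congr fun p hp => ?_)
  have hpp := Nat.prime_of_mem_primeFactors hp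
  exact or_congr ⟨fun h => ⟨hpp, (res_iff hM p).1 h⟩, fun h => (res_iff hM p).2 h.2⟩
    (inert_iff hpp)

theorem coef_ne (hb : b ≠ 0) (hc : a ^ 2 - 4 * b ≠ 0) : ¬ (coefA a b = 0 ∧ coefB a b = 0) := by
  rintro ⟨h1, h2⟩
  have h3 : 4 * coefA a b ^ 3 + 27 * coefB a b ^ 2 = -(27 ^ 4 * b ^ 2 * (a ^ 2 - 4 * b)) := by
    unfold coefA coefB
    ring
  rw [h1, h2] at h3
  have h4 : (27 : ℤ) ^ 4 * b ^ 2 * (a ^ 2 - 4 * b) = 0 := by linarith
  rcases mul_eq_zero.1 h4 with h5 | h5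
  · rcases mul_eq_zero.1 h5 with h5 | h5
    · norm_num at h5
    · exact hb (pow_eq_zero_iff two_ne_zero |>.1 h5)
  · exact hc h5

/-- the height of the equation -/
def ht (a b : ℤ) (D : ℕ) : ℕ :=
  max ((coefA a b).natAbs * D ^ 2) ((coefB a b).natAbs * D ^ 3)

theorem ht_le (D X : ℕ) : ht a b D ≤ X ↔ |coefA a b * D ^ 2| ≤ X ∧ |coefB a b * D ^ 3| ≤ X := by
  unfold ht
  rw [max_le_iff]
  have e1 : |coefA a b * D ^ 2| = (((coefA a b).natAbs * D ^ 2 : ℕ) : ℤ) := by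
    rw [Int.abs_eq_natAbs, Int.natAbs_mul, Int.natAbs_pow, Int.natAbs_natCast]
  have e2 : |coefB a b * D ^ 3| = (((coefB a b).natAbs * D ^ 3 : ℕ) : ℤ) := by
    rw [Int.abs_eq_natAbs, Int.natAbs_mul, Int.natAbs_pow, Int.natAbs_natCast]
  rw [e1, e2, Nat.cast_le, Nat.cast_le]

theorem le_ht (hb : b ≠ 0) (hc : a ^ 2 - 4 * b ≠ 0) (D : ℕ) : D ≤ ht a b D := by
  unfold ht
  by_cases hA : coefA a b = 0
  · have hB : coefB a b ≠ 0 := fun hB => coef_ne hb hc ⟨hA, hB⟩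
    refine le_max_of_le_right ?_
    exact (Nat.le_self_pow (by norm_num) D).trans
      (Nat.le_mul_of_pos_left _ (Int.natAbs_pos.2 hB))
  · refine le_max_of_le_left ?_
    exact (Nat.le_self_pow (by norm_num) D).trans
      (Nat.le_mul_of_pos_left _ (Int.natAbs_pos.2 hA))

theorem ht_mono {D D' : ℕ} (h : D ≤ D') : ht a b D ≤ ht a b D' := by
  unfold ht
  exact max_le_max (Nat.mul_le_mul_left _ (Nat.pow_le_pow_left h 2))
    (Nat.mul_le_mul_left _ (Nat.pow_le_pow_left h 3))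

/-- the largest `Y` with height at most `X` -/
noncomputable def root (a b : ℤ) (X : ℕ) : ℕ := Nat.findGreatest (fun Y => ht a b Y ≤ X) X

theorem le_root (hb : b ≠ 0) (hc : a ^ 2 - 4 * b ≠ 0) (X D : ℕ) :
    D ≤ root a b X ↔ ht a b D ≤ X := by
  unfold root
  constructor
  · intro h
    have h1 : ht a b (Nat.findGreatest (fun Y => ht a b Y ≤ X) X) ≤ X := by
      have h0 : ht a b 0 ≤ X := by simp [ht]
      exact Nat.findGreatest_spec (P := fun Y => ht a b Y ≤ X) (Nat.zero_le X) h0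
    exact (ht_mono h).trans h1
  · intro h
    exact Nat.le_findGreatest ((le_ht hb hc D).trans h) h

theorem root_tendsto (hb : b ≠ 0) (hc : a ^ 2 - 4 * b ≠ 0) : Tendsto (root a b) atTop atTop := by
  refine tendsto_atTop.2 fun n => ?_
  filter_upwards [eventually_ge_atTop (ht a b n)] with X hX
  exact (le_root hb hc X n).2 hX

theorem fam_eq (hb : b ≠ 0) (hc : a ^ 2 - 4 * b ≠ 0) (hM : M ≠ 0) (P : ℕ → Prop) (X : ℕ) :
    Fam a b M P X = (((Finset.Icc 1 (root a b X)).filter fun D =>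
      Pool.Agent.U115.GE.Class (a * M) (b * M ^ 2) D ∧ P D : Finset ℕ) : Set ℕ) := by
  ext D
  rw [Finset.coe_filter]
  constructor
  · rintro ⟨h1, h2, h3, h4⟩
    exact ⟨Finset.mem_Icc.2 ⟨Nat.pos_of_ne_zero h1.1.ne_zero,
      (le_root hb hc X D).2 ((ht_le D X).2 ⟨h2, h3⟩)⟩, (class_iff hM D).1 h1, h4⟩
  · rintro ⟨h1, h2, h4⟩
    obtain ⟨h5, h6⟩ := (ht_le D X).1 ((le_root hb hc X D).1 (Finset.mem_Icc.1 h1).2)
    exact ⟨(class_iff hM D).2 h2, h5, h6, h4⟩

theorem fam_card (hb : b ≠ 0) (hc : a ^ 2 - 4 * b ≠ 0) (hM : M ≠ 0) (P : ℕ → Prop) (X : ℕ) :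
    (Fam a b M P X).ncard = ((Finset.Icc 1 (root a b X)).filter fun D =>
      Pool.Agent.U115.GE.Class (a * M) (b * M ^ 2) D ∧ P D).card := by
  rw [fam_eq hb hc hM, Set.ncard_coe_finset]

theorem fam_card_true (hb : b ≠ 0) (hc : a ^ 2 - 4 * b ≠ 0) (hM : M ≠ 0) (X : ℕ) :
    (Fam a b M (fun _ => True) X).ncard = ((Finset.Icc 1 (root a b X)).filter fun D =>
      Pool.Agent.U115.GE.Class (a * M) (b * M ^ 2) D).card := by
  rw [fam_card hb hc hM]
  refine congrArg Finset.card (Finset.ext fun D => ?_)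
  simp only [Finset.mem_filter, and_true]

theorem fam_ge (hb : b ≠ 0) (hc : a ^ 2 - 4 * b ≠ 0) (hM : M ≠ 0) (P Q : ℕ → Prop)
    (hQ : ∀ D : ℕ, Pool.Agent.U115.GE.Class (a * M) (b * M ^ 2) D → Q D → P D) (X : ℕ) :
    ((Finset.Icc 1 (root a b X)).filter fun D =>
      Pool.Agent.U115.GE.Class (a * M) (b * M ^ 2) D ∧ Q D).card ≤ (Fam a b M P X).ncard := by
  rw [fam_card hb hc hM]
  refine Finset.card_le_card fun D hD => ?_
  have hD := Finset.mem_filter.1 hD
  exact Finset.mem_filter.2 ⟨hD.1, hD.2.1, hQ D hD.2.1 hD.2.2⟩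

theorem mean_eq (hb : b ≠ 0) (hc : a ^ 2 - 4 * b ≠ 0) (hM : M ≠ 0) (g : ℕ → ℝ) (X : ℕ) :
    mean a b M g X = Pool.Agent.U79.MO.mean (CX (a * M) (b * M ^ 2) (root a b X)) g := by
  have h1 : Fam a b M (fun _ => True) X = ((CX (a * M) (b * M ^ 2) (root a b X) : Finset ℕ) : Set ℕ) := by
    rw [fam_eq hb hc hM]
    congr 1
    refine Finset.ext fun D => ?_
    simp only [CX, Finset.mem_filter, and_true]
  unfold mean Pool.Agent.U79.MO.mean
  rw [h1, finsum_mem_coe_finset, Set.ncard_coe_finset]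

/-- the isomorphism with the short equation -/
theorem twist_inv (hb : b ≠ 0) (hc : a ^ 2 - 4 * b ≠ 0) {t : ℤ} (ht : t ≠ 0) {D : ℕ} (hD : D ≠ 0) :
    rk (twE (a * t) (b * t ^ 2) D) = rk (twist a b t D) ∧
    Nat.card {x : Sha (twE (a * t) (b * t ^ 2) D) // 2 • x = 0} =
      Nat.card {x : Sha (twist a b t D) // 2 • x = 0} ∧
    (Finite {x : Sha (twE (a * t) (b * t ^ 2) D) // 2 • x = 0} ↔
      Finite {x : Sha (twist a b t D) // 2 • x = 0}) ∧
    ((Finite (twE (a * t) (b * t ^ 2) D).toAffine.Point ∧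
      ∀ (n : ℕ) (x : Sha (twE (a * t) (b * t ^ 2) D)), 2 ^ n • x = 0 → x = 0) ↔
      TrivialTwo (twist a b t D)) := by
  obtain ⟨g1, g2⟩ := gc_ne hb hc ht
  obtain ⟨C, hC⟩ := Pool.Agent.U79.TF.shortK_iso (a * t) (b * t ^ 2) D ℚ
  have e : Pool.Agent.Y682.gc (a * t * D) (b * t ^ 2 * D ^ 2) ℚ = twE (a * t) (b * t ^ 2) D := by
    unfold Pool.Agent.Y682.gc twE Pool.Agent.Y682.wc
    push_cast
    rfl
  rw [e] at hC
  have hC' : C • twE (a * t) (b * t ^ 2) D = twist a b t D := hC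
  have hΔ := Pool.Agent.U79.MO.twE_disc_ne g1 g2 hD
  obtain ⟨h1, h2, h3⟩ := Pool.Agent.U79.MO.iso_inv hΔ hC'
  refine ⟨h1, h2, h3, ?_⟩
  obtain ⟨⟨⟨u, -⟩⟩, ⟨v⟩⟩ := Pool.Agent.Y655.XT.s_shavc ℚ _ _ C hΔ hC'
  refine and_congr u.finite_iff ⟨fun h n x hx => ?_, fun h n x hx => ?_⟩
  · have h4 := h n (v.symm x) (by rw [← map_nsmul, hx, map_zero])
    have h5 := congrArg v h4
    rwa [v.apply_symm_apply, map_zero] at h5
  · have h4 := h n (v x) (by rw [← map_nsmul, hx, map_zero])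
    exact (map_eq_zero_iff v v.injective).1 h4

theorem poly_low {φ : ℕ → ℝ} {K : ℝ} {m : ℕ} (h : ∀ n : ℕ, |φ n| ≤ K * ((n : ℝ) + 1) ^ m) (t : ℕ)
    (r : ℕ) (k : ℕ) (hk : 1 ≤ k) : |φ (t + r * k)| ≤ (K * ((t : ℝ) + r + 1) ^ m) * (k : ℝ) ^ m := by
  have hK : 0 ≤ K := by
    have := (abs_nonneg _).trans (h 0)
    simpa using this
  have hk' : (1 : ℝ) ≤ k := by exact_mod_cast hk
  have ht : (0 : ℝ) ≤ t := Nat.cast_nonneg _
  have hr : (0 : ℝ) ≤ r := Nat.cast_nonneg _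
  refine (h _).trans ?_
  rw [mul_assoc, ← mul_pow]
  refine mul_le_mul_of_nonneg_left ?_ hK
  refine pow_le_pow_left₀ (by positivity) ?_ m
  push_cast
  nlinarith

end proof

open Pool.Agent.U79.TF in
/-- **The law and the mean of the ranks over multiquadratic fields.** -/
theorem result (S : Finset ℤ) (hS : ∀ d ∈ S, d ≠ 0) (a b : ℤ) (hb : ¬ IsSquare b)
    (hc : ¬ IsSquare (a ^ 2 - 4 * b)) :
    -- the family is infinite, with finitely many equations of bounded height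
    (∀ X : ℕ, (Fam a b (∏ d ∈ S, d) (fun _ => True) X).Finite) ∧
    Tendsto (fun X : ℕ => (Fam a b (∏ d ∈ S, d) (fun _ => True) X).ncard) atTop atTop ∧
    -- the Selmer ranks in the definition of `R₀`
    (∀ T ⊆ S, (Sel (a * ∏ d ∈ T, d) (b * (∏ d ∈ T, d) ^ 2)).ncard *
      (Sel (-2 * (a * ∏ d ∈ T, d)) ((a * ∏ d ∈ T, d) ^ 2 - 4 * (b * (∏ d ∈ T, d) ^ 2))).ncard =
        2 ^ (s (a * ∏ d ∈ T, d) (b * (∏ d ∈ T, d) ^ 2) + 2)) ∧
    -- one number for all the twists, and its law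
    (∃ k : ℕ → ℕ,
      (∀ j : ℕ, Tendsto (proportion a b (∏ d ∈ S, d) fun D => k D = j) atTop (nhds (c j))) ∧
      (∀ D : ℕ, Class a b (∏ d ∈ S, d) D → ∀ T ⊆ S,
        s (a * (∏ d ∈ T, d) * D) (b * (∏ d ∈ T, d) ^ 2 * D ^ 2) =
          s (a * ∏ d ∈ T, d) (b * (∏ d ∈ T, d) ^ 2) + 2 * k D ∧
        Finite {x : Sha (twist a b (∏ d ∈ T, d) D) // 2 • x = 0} ∧
        k D ≤ rk (twist a b (∏ d ∈ T, d) D) + shaDim (twist a b (∏ d ∈ T, d) D) ∧
        rk (twist a b (∏ d ∈ T, d) D) + shaDim (twist a b (∏ d ∈ T, d) D) ≤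
          s (a * ∏ d ∈ T, d) (b * (∏ d ∈ T, d) ^ 2) + 2 * k D ∧
        (s (a * ∏ d ∈ T, d) (b * (∏ d ∈ T, d) ^ 2) = 0 →
          (TrivialTwo (twist a b (∏ d ∈ T, d) D) ↔ k D = 0))) ∧
      ∀ (K : Type) [Field K] [NumberField K] (r : ℤ → K), (∀ d ∈ S, r d ^ 2 = (d : K)) →
        IntermediateField.adjoin ℚ (r '' (S : Set ℤ)) = ⊤ → ∀ D : ℕ, Class a b (∏ d ∈ S, d) D →
          rk (E a b D K) ≤ R₀ a b S + 2 ^ (S.card + 1) * k D) ∧
    -- the ranks over `K = ℚ(√d : d ∈ S)`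
    (∀ (K : Type) [Field K] [NumberField K] (r : ℤ → K), (∀ d ∈ S, r d ^ 2 = (d : K)) →
      IntermediateField.adjoin ℚ (r '' (S : Set ℤ)) = ⊤ →
      (∀ (j : ℕ) (ε : ℝ), 0 < ε → ∃ X₀ : ℕ, ∀ X : ℕ, X₀ ≤ X →
        (∑ i ∈ Finset.range (j + 1), c i) - ε ≤ proportion a b (∏ d ∈ S, d)
          (fun D => rk (E a b D K) ≤ R₀ a b S + 2 ^ (S.card + 1) * j) X) ∧
      (∀ φ : ℕ → ℝ, Poly φ →
        (Summable fun j : ℕ => φ (R₀ a b S + 2 ^ (S.card + 1) * j) * c j) ∧
        ∀ ε : ℝ, 0 < ε → ∃ X₀ : ℕ, ∀ X : ℕ, X₀ ≤ X →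
          mean a b (∏ d ∈ S, d) (fun D => φ (rk (E a b D K))) X ≤
            (∑' j : ℕ, φ (R₀ a b S + 2 ^ (S.card + 1) * j) * c j) + ε) ∧
      (∃ X₀ : ℕ, ∀ X : ℕ, X₀ ≤ X → mean a b (∏ d ∈ S, d) (fun D => (rk (E a b D K) : ℝ)) X ≤
        R₀ a b S + 1.5294 * 2 ^ S.card) ∧
      (R₀ a b S = 0 → Tendsto (proportion a b (∏ d ∈ S, d) fun D => rk (E a b D K) = 0 ∧
        ∀ T ⊆ S, TrivialTwo (twist a b (∏ d ∈ T, d) D)) atTop (nhds (c 0)))) ∧
    -- the constants
    HasSum c 1 ∧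
    (∀ k : ℕ, 1 - ∑ j ∈ Finset.range (k + 1), c j ≤ 2 * (1 / 2 : ℝ) ^ (k * (k + 1) / 2)) ∧
    0.4194 < c 0 ∧ 0.8388 < c 0 + c 1 ∧ 0.9785 < c 0 + c 1 + c 2 := by
  have hb0 : b ≠ 0 := by
    rintro rfl
    exact hb ⟨0, by norm_num⟩
  have hc0 : a ^ 2 - 4 * b ≠ 0 := by
    intro h
    exact hc ⟨0, by rw [h]; norm_num⟩
  set M : ℤ := ∏ d ∈ S, d with hMdef
  have hM : M ≠ 0 := Finset.prod_ne_zero_iff.2 hS
  obtain ⟨g1, g2⟩ := gc_ne hb0 hc0 hM
  obtain ⟨-, -, -, k1, k2⟩ := Pool.Agent.Y948.CQ.t_C2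
  set c₀ : ℝ := ∏' i : ℕ, (1 - (1 / 2 : ℝ) ^ (2 * i + 1)) with hc₀
  have e0 : c 0 = c₀ := by
    unfold c
    rw [Finset.range_zero, Finset.prod_empty, div_one]
  have e1 : c 1 = c₀ := by
    unfold c
    norm_num
    rfl
  have e2 : c 2 = c₀ / 3 := by
    unfold c
    norm_num [Finset.prod_range_succ]
    rfl
  have k1' : (0.4194 : ℝ) < c₀ := k1
  have hdv : ∀ T ⊆ S, ∏ d ∈ T, d ∣ M := fun T hT => Finset.prod_dvd_prod_of_subset T S _ hT
  have hT0 : ∀ T ⊆ S, ∏ d ∈ T, d ≠ 0 := fun T hT =>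
    Finset.prod_ne_zero_iff.2 fun d hd => hS d (hT hd)
  -- the bounds
  have hbd : ∀ D : ℕ, Class a b M D → ∀ T ⊆ S,
      s (a * (∏ d ∈ T, d) * D) (b * (∏ d ∈ T, d) ^ 2 * D ^ 2) =
        s (a * ∏ d ∈ T, d) (b * (∏ d ∈ T, d) ^ 2) + 2 * Pool.Agent.U115.GE.cork a b D ∧
      Finite {x : Sha (twist a b (∏ d ∈ T, d) D) // 2 • x = 0} ∧
      Pool.Agent.U115.GE.cork a b D ≤
        rk (twist a b (∏ d ∈ T, d) D) + shaDim (twist a b (∏ d ∈ T, d) D) ∧
      rk (twist a b (∏ d ∈ T, d) D) + shaDim (twist a b (∏ d ∈ T, d) D) ≤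
        s (a * ∏ d ∈ T, d) (b * (∏ d ∈ T, d) ^ 2) + 2 * Pool.Agent.U115.GE.cork a b D ∧
      (s (a * ∏ d ∈ T, d) (b * (∏ d ∈ T, d) ^ 2) = 0 →
        (TrivialTwo (twist a b (∏ d ∈ T, d) D) ↔ Pool.Agent.U115.GE.cork a b D = 0)) := by
    intro D hD T hT
    have hD' := (class_iff hM D).1 hD
    obtain ⟨u1, u2, u3, u4⟩ := Pool.Agent.U79.MO.two_sided_m hb hc hM (hdv T hT) hD'
    obtain ⟨v1, v2, v3, v4⟩ := twist_inv (a := a) (b := b) hb0 hc0 (hT0 T hT) hD.1.ne_zero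
    unfold Pool.Agent.U79.MO.ds at u2 u3
    unfold shaDim
    rw [v1, v2] at u2 u3
    exact ⟨Pool.Agent.U79.MO.sr_m hb hc hM (hdv T hT) hD', v3.1 u1, u2, u3,
      fun h => v4.symm.trans (u4 h)⟩
  have hrk : ∀ (K : Type) [Field K] [NumberField K] (r : ℤ → K), (∀ d ∈ S, r d ^ 2 = (d : K)) →
      IntermediateField.adjoin ℚ (r '' (S : Set ℤ)) = ⊤ → ∀ D : ℕ, Class a b M D →
        rk (E a b D K) ≤ R₀ a b S + 2 ^ (S.card + 1) * Pool.Agent.U115.GE.cork a b D := by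
    intro K _ _ r hr hK D hD
    have h4 := Pool.Agent.U79.MO.rank_K2 hb0 hc0 hS K r hr hK ((class_iff hM D).1 hD)
    rw [← rk_short hb0 hc0 hD.1.ne_zero K] at h4
    exact h4
  have hlaw : ∀ j : ℕ, Tendsto (proportion a b M fun D => Pool.Agent.U115.GE.cork a b D = j) atTop
      (nhds (c j)) := by
    intro j
    have h1 := law_m (m := 1) (M := M) hb hc hM (one_dvd M) j
    rw [mul_one, one_pow, mul_one] at h1
    refine (h1.comp (root_tendsto hb0 hc0)).congr fun X => ?_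
    unfold proportion
    rw [fam_card_true hb0 hc0 hM, fam_card hb0 hc0 hM]
    refine congrArg₂ (fun x y : ℕ => (x : ℝ) / (y : ℝ)) (congrArg Finset.card
      (Finset.ext fun D => ?_)) (congrArg Finset.card (Finset.ext fun D => ?_))
    · simp only [Finset.mem_filter]
    · simp only [Finset.mem_filter]
  have hphi : ∀ {φ : ℕ → ℝ} {B : ℝ} {n : ℕ}, (∀ k : ℕ, 1 ≤ k → |φ k| ≤ B * (k : ℝ) ^ n) →
      (Summable fun k : ℕ => φ k * c k) ∧ Tendsto (fun X : ℕ => mean a b M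
        (fun D => φ (Pool.Agent.U115.GE.cork a b D)) X) atTop (nhds (∑' k : ℕ, φ k * c k)) := by
    intro φ B n hφ
    obtain ⟨w1, w2⟩ := Pool.Agent.U79.MO.phi_class' (M := M) hb hc hM hφ
    refine ⟨w1, (w2.comp (root_tendsto hb0 hc0)).congr fun X => ?_⟩
    rw [mean_eq hb0 hc0 hM]
    rfl
  have hmono : ∀ (g g' : ℕ → ℝ), (∀ D, Class a b M D → g D ≤ g' D) → ∀ X,
      mean a b M g X ≤ mean a b M g' X := by
    intro g g' h X
    rw [mean_eq hb0 hc0 hM, mean_eq hb0 hc0 hM]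
    refine Pool.Agent.U79.MO.mean_mono fun D hD => h D ?_
    exact (class_iff hM D).2 (Finset.mem_filter.1 hD).2
  have hPoly : ∀ (K : Type) [Field K] [NumberField K] (r : ℤ → K), (∀ d ∈ S, r d ^ 2 = (d : K)) →
      IntermediateField.adjoin ℚ (r '' (S : Set ℤ)) = ⊤ → ∀ φ : ℕ → ℝ, Poly φ →
        (Summable fun j : ℕ => φ (R₀ a b S + 2 ^ (S.card + 1) * j) * c j) ∧
        ∀ ε : ℝ, 0 < ε → ∃ X₀ : ℕ, ∀ X : ℕ, X₀ ≤ X →
          mean a b M (fun D => φ (rk (E a b D K))) X ≤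
            (∑' j : ℕ, φ (R₀ a b S + 2 ^ (S.card + 1) * j) * c j) + ε := by
    rintro K _ _ r hr hK φ ⟨hmo, B, m, hB⟩
    obtain ⟨q1, q2⟩ := hphi (φ := fun k => φ (R₀ a b S + 2 ^ (S.card + 1) * k))
      (poly_low hB (R₀ a b S) (2 ^ (S.card + 1)))
    refine ⟨q1, fun ε hε => ?_⟩
    obtain ⟨X₀, hX₀⟩ := eventually_atTop.1 (q2.eventually (gt_mem_nhds (show
      (∑' k : ℕ, φ (R₀ a b S + 2 ^ (S.card + 1) * k) * c k) <
        (∑' k : ℕ, φ (R₀ a b S + 2 ^ (S.card + 1) * k) * c k) + ε by linarith)))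
    exact ⟨X₀, fun X hX => (hmono _ _ (fun D hD => hmo (hrk K r hr hK D hD)) X).trans (hX₀ X hX).le⟩
  refine ⟨fun X => ?_, ?_, fun T hT => ?_, ⟨Pool.Agent.U115.GE.cork a b, hlaw, hbd, hrk⟩, ?_,
    Pool.Agent.U388.GD.t_SUMK, tail_le, ?_, ?_, ?_⟩
  · rw [fam_eq hb0 hc0 hM]
    exact Finset.finite_toSet _
  · refine ((class_many g1 g2).comp (root_tendsto hb0 hc0)).congr fun X => ?_
    rw [fam_card_true hb0 hc0 hM]
    rfl
  · obtain ⟨t1, t2⟩ := gc_ne hb0 hc0 (hT0 T hT)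
    exact sel2_pow t1 t2
  · intro K _ _ r hr hK
    refine ⟨fun j ε hε => ?_, hPoly K r hr hK, ?_, fun hR => ?_⟩
    · have h1 := law_le (m := 1) (M := M) hb hc hM (one_dvd M) j
      rw [mul_one, one_pow, mul_one] at h1
      obtain ⟨X₀, h2⟩ := eventually_atTop.1 ((h1.comp (root_tendsto hb0 hc0)).eventually
        (lt_mem_nhds (show (∑ i ∈ Finset.range (j + 1), c i) - ε <
          ∑ i ∈ Finset.range (j + 1), Pool.Agent.U115.GD.ck i by
          have : (∑ i ∈ Finset.range (j + 1), c i) =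
            ∑ i ∈ Finset.range (j + 1), Pool.Agent.U115.GD.ck i := rfl
          linarith)))
      refine ⟨X₀, fun X hX => (h2 X hX).le.trans ?_⟩
      unfold proportion
      rw [fam_card_true hb0 hc0 hM]
      refine div_le_div_of_nonneg_right ?_ (Nat.cast_nonneg _)
      rw [Nat.cast_le]
      refine le_trans (le_of_eq (congrArg Finset.card (Finset.ext fun D => ?_)))
        (fam_ge (a := a) (b := b) hb0 hc0 hM
        (fun D => rk (E a b D K) ≤ R₀ a b S + 2 ^ (S.card + 1) * j)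
        (fun D => Pool.Agent.U115.GE.cork a b D ≤ j) (fun D hD hQ =>
          (hrk K r hr hK D ((class_iff hM D).2 hD)).trans
            (Nat.add_le_add_left (Nat.mul_le_mul_left _ hQ) _)) X)
      simp only [Finset.mem_filter]
    · have hid : Poly fun n => (n : ℝ) := by
        refine ⟨fun x y h => ?_, 1, 1, fun n => ?_⟩
        · show (x : ℝ) ≤ (y : ℝ)
          exact_mod_cast h
        rw [abs_of_nonneg (Nat.cast_nonneg n)]
        linarith
      obtain ⟨q1, -⟩ := hphi (φ := fun k => (k : ℝ)) (B := 1) (n := 1) (fun k _ => by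
        rw [abs_of_nonneg (Nat.cast_nonneg k)]
        linarith)
      obtain ⟨m1, m2⟩ := Pool.Agent.U79.MO.mu_bounds q1
      have emu : Pool.Agent.U79.MO.mu = ∑' k : ℕ, (k : ℝ) * c k := rfl
      have es : (∑' j : ℕ, ((R₀ a b S + 2 ^ (S.card + 1) * j : ℕ) : ℝ) * c j) =
          R₀ a b S + 2 ^ (S.card + 1) * ∑' k : ℕ, (k : ℝ) * c k := by
        have h1 : HasSum (fun k : ℕ => (R₀ a b S : ℝ) * c k) ((R₀ a b S : ℝ) * 1) :=
          (Pool.Agent.U388.GD.t_SUMK : HasSum c 1).mul_left _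
        have h2 := h1.add (q1.hasSum.mul_left ((2 : ℝ) ^ (S.card + 1)))
        rw [mul_one] at h2
        rw [← h2.tsum_eq]
        refine tsum_congr fun k => ?_
        push_cast
        ring
      have h2n : (0 : ℝ) < 2 ^ (S.card + 1) := by positivity
      obtain ⟨X₀, hX₀⟩ := (hPoly K r hr hK _ hid).2
        (2 ^ (S.card + 1) * (0.7647 - Pool.Agent.U79.MO.mu))
        (mul_pos h2n (by linarith))
      refine ⟨X₀, fun X hX => (hX₀ X hX).trans (le_of_eq ?_)⟩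
      rw [es, ← emu, pow_succ]
      ring
    · have hs0 : ∀ T ⊆ S, s (a * ∏ d ∈ T, d) (b * (∏ d ∈ T, d) ^ 2) = 0 := by
        intro T hT
        unfold R₀ at hR
        exact (Finset.sum_eq_zero_iff.1 hR) T (Finset.mem_powerset.2 hT)
      refine (hlaw 0).congr fun X => ?_
      have e : Fam a b M (fun D => Pool.Agent.U115.GE.cork a b D = 0) X =
          Fam a b M (fun D => rk (E a b D K) = 0 ∧
            ∀ T ⊆ S, TrivialTwo (twist a b (∏ d ∈ T, d) D)) X := by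
        ext D
        refine and_congr_right fun hD => and_congr_right fun _ => and_congr_right fun _ => ?_
        constructor
        · intro h0
          refine ⟨?_, fun T hT => ((hbd D hD T hT).2.2.2.2 (hs0 T hT)).2 h0⟩
          have h1 := hrk K r hr hK D hD
          rw [h0, hR] at h1
          exact Nat.eq_zero_of_le_zero h1
        · rintro ⟨-, h2⟩
          exact ((hbd D hD ∅ (Finset.empty_subset S)).2.2.2.2 (hs0 ∅ (Finset.empty_subset S))).1
            (h2 ∅ (Finset.empty_subset S))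
      unfold proportion
      rw [e]
  · rw [e0]; exact k1'
  · rw [e0, e1]; linarith
  · rw [e0, e1, e2]; linarith

end Pool.Agent.Results.MP_81dc49_nt.RanksOverMultiquadraticFields
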