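import Mathlib
import Pool.Agent.U214.UN.BoxT
import Pool.Agent.U563.MM.Mq

/-!
# Ranks over multiquadratic fields generated by the values of binary forms

Let `A, B, D` be binary forms with integer coefficients, given by polynomials in one variable
(`hom f m n = n ^ deg f * f (m / n)`), `A`, `B` and `A - B` of the same degree, `A B (A - B)`
squarefree over `ℚ`, and let `E_(m,n) : y² = x (x - A(m,n) D(m,n)) (x - B(m,n) D(m,n))`. Let
`G 0, …, G (k - 1)` be nonzero binary forms and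
`K_(m,n) = ℚ(√(G 0 (m,n)), …, √(G (k-1) (m,n)))`, a field of degree up to `2 ^ k`. Suppose that every
irreducible factor over `ℚ` of `A B (A - B)` divides `D` and every `G i` to an even power. For every
`r` the `r`-th moment of `2 ^ rank E_(m,n)(K_(m,n))` over the coprime pairs in a box
`(u, u + X] × (v, v + Y]` is at most `C (1 + log X) ^ kap`, uniformly in all boxes with
`|u| ≤ X ^ K` and `v + Y ≤ min(X, Y) ^ K`.
-/

set_option autoImplicit false

namespace Pool.Agent.Results.MP_81dc49_nt.FieldsOfBinaryForms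

open Finset Polynomial

/-- the value at `(m, n)` of the binary form of degree `deg f` with `f (t) = hom f t 1` -/
def hom (f : ℤ[X]) (m n : ℤ) : ℤ :=
  ∑ i ∈ range (f.natDegree + 1), f.coeff i * m ^ i * n ^ (f.natDegree - i)

/-- the curve `y² = x (x - a) (x - b)` over the field `F` -/
def E (F : Type) [Field F] (a b : ℤ) : WeierstrassCurve F := ⟨0, -((a : F) + b), 0, (a : F) * b, 0⟩

open Classical in
/-- the rank of the group of the points over `F` of `y² = x (x - a) (x - b)` -/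
noncomputable def rank (F : Type) [Field F] (a b : ℤ) : ℕ :=
  Module.finrank ℤ (E F a b).toAffine.Point

/-- the subfield of `ℂ` generated by the square roots of the values `G i (m, n)` -/
noncomputable def K {k : ℕ} (G : Fin k → ℤ[X]) (w : ℤ × ℕ) : IntermediateField ℚ ℂ :=
  IntermediateField.adjoin ℚ {z : ℂ | ∃ i, z ^ 2 = ((hom (G i) w.1 w.2 : ℤ) : ℂ)}

/-- `f` as a polynomial over `ℚ` -/
noncomputable def q (f : ℤ[X]) : ℚ[X] := f.map (Int.castRingHom ℚ)

/-- the number of the irreducible factors of `f` over `ℚ` -/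
noncomputable def n (f : ℤ[X]) : ℕ := (UniqueFactorizationMonoid.normalizedFactors (q f)).card

/-- the exponent: the largest of `0` and the three numbers
`(2 ^ r - 1) * (n F - (n G + n H) / 2 ^ r)`, `{F, G, H} = {A, B, A - B}` -/
noncomputable def kap (r : ℕ) (A B : ℤ[X]) : ℝ :=
  max 0 (max (((2 : ℝ) ^ r - 1) * (n A - ((n B : ℝ) + n (A - B)) / 2 ^ r))
    (max (((2 : ℝ) ^ r - 1) * (n B - ((n A : ℝ) + n (A - B)) / 2 ^ r))
      (((2 : ℝ) ^ r - 1) * (n (A - B) - ((n A : ℝ) + n B) / 2 ^ r))))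

/-- the coprime pairs `(m, n)` with `u < m ≤ u + X`, `v < n ≤ v + Y`, a nonsingular curve and
nonzero values of all the `G i` -/
noncomputable def Box (A B D : ℤ[X]) {k : ℕ} (G : Fin k → ℤ[X]) (u : ℤ) (v X Y : ℕ) :
    Finset (ℤ × ℕ) :=
  ((Ioc u (u + X)) ×ˢ (Ioc v (v + Y))).filter (fun w : ℤ × ℕ =>
    IsCoprime w.1 (w.2 : ℤ) ∧ hom A w.1 w.2 * hom B w.1 w.2 * (hom A w.1 w.2 - hom B w.1 w.2) *
      hom D w.1 w.2 ≠ 0 ∧ ∀ i, hom (G i) w.1 w.2 ≠ 0)

/-- the rank of `E_(m,n)` over `K_(m,n)` -/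
noncomputable def R (A B D : ℤ[X]) {k : ℕ} (G : Fin k → ℤ[X]) (w : ℤ × ℕ) : ℕ :=
  rank (K G w) (hom A w.1 w.2 * hom D w.1 w.2) (hom B w.1 w.2 * hom D w.1 w.2)

section

open Pool.Agent.U563.MM
open Pool.Agent.W262.RK (EAB)

lemma E_eq (F : Type) [Field F] (a b c : ℤ) :
    E F (a * c) (b * c) = Pool.Agent.Y682.gc (-(a + b) * c) (a * b * c ^ 2) F := by
  unfold E Pool.Agent.Y682.gc
  congr 1
  · push_cast
    ring
  · push_cast
    ring

lemma rank_eq (F : Type) [Field F] [NumberField F] (a b c : ℤ) :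
    rank F (a * c) (b * c) = RT (-(a + b)) (a * b) F c := by
  unfold rank RT Pool.Agent.TH841.NF.D.rk
  rw [← E_eq F a b c]

/-- the rank with a given decision procedure of the equality -/
noncomputable def rkd (W : WeierstrassCurve ℚ) (d : DecidableEq ℚ) : ℕ :=
  letI := d
  Module.finrank ℤ W.toAffine.Point

lemma rank_rat (a b c : ℤ) :
    rank ℚ (a * c) (b * c) = Module.finrank ℤ (EAB (a * c) (b * c)).toAffine.Point := by
  have h1 : rank ℚ (a * c) (b * c) = rkd (EAB (a * c) (b * c)) (Classical.decEq ℚ) := rfl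
  have h2 : rkd (EAB (a * c) (b * c)) inferInstance =
    Module.finrank ℤ (EAB (a * c) (b * c)).toAffine.Point := rfl
  rw [h1, ← h2]
  exact congrArg _ (Subsingleton.elim _ _)

/-- a power of the sum is at most the sum of large powers -/
lemma pow_sum_le {ι : Type} (S : Finset ι) (hS : S.Nonempty) (f : ι → ℕ) (k : ℕ) :
    ((2 : ℝ) ^ (∑ i ∈ S, f i)) ^ k ≤ ∑ i ∈ S, ((2 : ℝ) ^ f i) ^ (k * S.card) := by
  obtain ⟨i0, hi0, hmax⟩ := S.exists_max_image f hS
  have h1 : ∑ i ∈ S, f i ≤ S.card * f i0 := by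
    rw [← smul_eq_mul]
    exact sum_le_card_nsmul S f (f i0) hmax
  calc ((2 : ℝ) ^ (∑ i ∈ S, f i)) ^ k ≤ ((2 : ℝ) ^ (S.card * f i0)) ^ k :=
        pow_le_pow_left₀ (by positivity) (pow_le_pow_right₀ (by norm_num) h1) k
    _ = ((2 : ℝ) ^ f i0) ^ (k * S.card) := by
        rw [← pow_mul, ← pow_mul]
        congr 1
        ring
    _ ≤ _ := single_le_sum (f := fun i => ((2 : ℝ) ^ f i) ^ (k * S.card))
        (fun i _ => by positivity) hi0

/-- the homogenization is multiplicative -/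
lemma hom_prod {k : ℕ} (D : ℤ[X]) (G : Fin k → ℤ[X]) (T : Finset (Fin k)) (m : ℤ) (n : ℕ) :
    hom (D * ∏ i ∈ T, G i) m n = hom D m n * ∏ i ∈ T, hom (G i) m n := by
  classical
  have h : ∀ f : ℤ[X], hom f m n = Pool.Agent.U214.UN.ev f n m := fun f =>
    Pool.Agent.U214.UN.hom_ev f m n
  simp only [h]
  induction T using Finset.induction_on with
  | empty => simp
  | insert i T hi ih =>
    rw [prod_insert hi, prod_insert hi, mul_left_comm, Pool.Agent.U214.UN.ev_mul, ih]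
    ring

end

open Pool.Agent.U563.MM in
open Pool.Agent.W262.RK (EAB) in
/-- **All the moments of `2 ^ rank E_(m,n)(K_(m,n))`** over boxes. -/
theorem result (A B D : ℤ[X]) (hB : B.natDegree = A.natDegree)
    (hAB : (A - B).natDegree = A.natDegree) (hD : D ≠ 0) (hS : Squarefree (q (A * B * (A - B))))
    (hevD : ∀ P : ℚ[X], Irreducible P → P ∣ q (A * B * (A - B)) → Even (multiplicity P (q D)))
    (k : ℕ) (G : Fin k → ℤ[X]) (hG : ∀ i, G i ≠ 0)
    (hev : ∀ i, ∀ P : ℚ[X], Irreducible P → P ∣ q (A * B * (A - B)) →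
      Even (multiplicity P (q (G i))))
    (r L : ℕ) : ∃ C : ℝ, ∀ X Y : ℕ, 1 ≤ X → 1 ≤ Y → ∀ v : ℕ, v + Y ≤ min X Y ^ L →
      ∀ u : ℤ, |u| ≤ (X : ℤ) ^ L →
      ∑ w ∈ Box A B D G u v X Y, ((2 : ℝ) ^ R A B D G w) ^ r ≤
        C * (X * Y * (1 + Real.log X) ^ kap (r * 2 ^ k) A B) ∧
      ∀ s : ℕ, (((Box A B D G u v X Y).filter (fun w => s ≤ R A B D G w)).card : ℝ) ≤
        C / 2 ^ (r * s) * (X * Y * (1 + Real.log X) ^ kap (r * 2 ^ k) A B) := by
  classical
  suffices hmain : ∃ C : ℝ, ∀ X Y : ℕ, 1 ≤ X → 1 ≤ Y → ∀ v : ℕ, v + Y ≤ min X Y ^ L →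
      ∀ u : ℤ, |u| ≤ (X : ℤ) ^ L →
      ∑ w ∈ Box A B D G u v X Y, ((2 : ℝ) ^ R A B D G w) ^ r ≤
        C * (X * Y * (1 + Real.log X) ^ kap (r * 2 ^ k) A B) by
    obtain ⟨C, hC⟩ := hmain
    refine ⟨C, fun X Y hX hY v hv u hu => ⟨hC X Y hX hY v hv u hu, fun s => ?_⟩⟩
    have h1 := hC X Y hX hY v hv u hu
    rw [div_mul_eq_mul_div, le_div_iff₀ (by positivity)]
    refine le_trans ?_ h1
    rw [← nsmul_eq_mul, ← sum_const]
    refine (sum_le_sum fun t ht => ?_).trans (sum_le_sum_of_subset_of_nonneg (filter_subset _ _)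
      fun t _ _ => by positivity)
    have h2 := (mem_filter.1 ht).2
    rw [← pow_mul, mul_comm r s]
    exact pow_le_pow_right₀ (by norm_num) (Nat.mul_le_mul_right r h2)
  have hcard : (univ : Finset (Fin k)).powerset.card = 2 ^ k := by
    rw [card_powerset, card_univ, Fintype.card_fin]
  -- the field
  have hK : ∀ w : ℤ × ℕ, K G w = mqf (univ.image (fun i => hom (G i) w.1 w.2)) := by
    intro w
    unfold K mqf
    congr 1
    ext z
    simp only [Set.mem_setOf_eq, mem_image, mem_univ, true_and, exists_exists_eq_and]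
  -- the twists
  set Q : Finset (Fin k) → ℤ × ℕ → ℝ := fun T w =>
    ((2 : ℝ) ^ Module.finrank ℤ (EAB (hom A w.1 w.2 * (hom D w.1 w.2 * ∏ i ∈ T, hom (G i) w.1 w.2))
      (hom B w.1 w.2 * (hom D w.1 w.2 *
        ∏ i ∈ T, hom (G i) w.1 w.2))).toAffine.Point) ^ (r * 2 ^ k) with hQ
  have hQ0 : ∀ T t, 0 ≤ Q T t := fun T t => by positivity
  have hQb : ∀ T : Finset (Fin k), ∃ C : ℝ, ∀ X Y : ℕ, 1 ≤ X → 1 ≤ Y →
      ∀ v : ℕ, v + Y ≤ min X Y ^ L → ∀ u : ℤ, |u| ≤ (X : ℤ) ^ L →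
      ∑ w ∈ Box A B D G u v X Y, Q T w ≤
        C * (X * Y * (1 + Real.log X) ^ kap (r * 2 ^ k) A B) := by
    intro T
    have hDT : D * ∏ i ∈ T, G i ≠ 0 := mul_ne_zero hD (prod_ne_zero_iff.2 fun i _ => hG i)
    have hevT : ∀ P : ℚ[X], Irreducible P → P ∣ (A * B * (A - B)).map (Int.castRingHom ℚ) →
        Even (multiplicity P ((D * ∏ i ∈ T, G i).map (Int.castRingHom ℚ))) := by
      intro P hP hPd
      clear hDT hQ0
      rw [Polynomial.map_mul, Polynomial.map_prod]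
      have hDn : D.map (Int.castRingHom ℚ) ≠ 0 :=
        (Polynomial.map_ne_zero_iff (Int.cast_injective)).2 hD
      have hne : ∀ i, (G i).map (Int.castRingHom ℚ) ≠ 0 := fun i =>
        (Polynomial.map_ne_zero_iff (Int.cast_injective)).2 (hG i)
      induction T using Finset.induction_on with
      | empty =>
        rw [prod_empty, mul_one]
        exact hevD P hP hPd
      | insert i T hi ih =>
        rw [prod_insert hi, mul_left_comm, multiplicity_mul hP.prime
          (FiniteMultiplicity.of_prime_left hP.prime (mul_ne_zero (hne i)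
            (mul_ne_zero hDn (prod_ne_zero_iff.2 fun j _ => hne j))))]
        exact (hev i P hP hPd).add ih
    obtain ⟨C, hC⟩ := Pool.Agent.U214.UN.famBox Pool.Agent.U214.GT.tr_QL hB hAB hDT hS hevT
      (r := r * 2 ^ k) (e := kap (r * 2 ^ k) A B) (le_max_left _ _)
      ((le_max_left _ _).trans (le_max_right _ _))
      ((le_max_left _ _).trans ((le_max_right _ _).trans (le_max_right _ _)))
      ((le_max_right _ _).trans ((le_max_right _ _).trans (le_max_right _ _))) L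
    refine ⟨C, fun X Y hX hY v hv u hu => ?_⟩
    have h1 := hC X Y v u hX hY
      (hv.trans (Nat.pow_le_pow_left (min_le_left X Y) L))
      (hv.trans (Nat.pow_le_pow_left (min_le_right X Y) L)) (by zify; exact hu)
    refine le_trans ?_ h1
    have hh : ∀ w : ℤ × ℕ, Pool.Agent.U214.UN.hom (D * ∏ i ∈ T, G i) w.1 w.2 =
        hom D w.1 w.2 * ∏ i ∈ T, hom (G i) w.1 w.2 := fun w => hom_prod D G T w.1 w.2
    refine le_trans (le_of_eq ?_) (sum_le_sum_of_subset_of_nonneg (s := Box A B D G u v X Y) ?_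
      fun _ _ _ => pow_nonneg (Pool.Agent.U214.GT.tr_QL.nn _ _) _)
    · refine sum_congr rfl fun w _ => ?_
      rw [hh w, hQ]
      rfl
    · intro w hw
      unfold Box at hw
      rw [mem_filter] at hw ⊢
      refine ⟨hw.1, hw.2.1, ?_⟩
      rw [hh w, ← mul_assoc]
      exact mul_ne_zero hw.2.2.1 (prod_ne_zero_iff.2 fun i _ => hw.2.2.2 i)
  choose CT hCT using hQb
  -- the pointwise bound
  have hpt : ∀ w : ℤ × ℕ, hom A w.1 w.2 * hom B w.1 w.2 * (hom A w.1 w.2 - hom B w.1 w.2) *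
      hom D w.1 w.2 ≠ 0 → (∀ i, hom (G i) w.1 w.2 ≠ 0) →
      ((2 : ℝ) ^ R A B D G w) ^ r ≤ ∑ T ∈ (univ : Finset (Fin k)).powerset, Q T w := by
    intro w hw hG'
    have hD' : hom D w.1 w.2 ≠ 0 := right_ne_zero_of_mul hw
    have h3 := left_ne_zero_of_mul hw
    have hBt : hom A w.1 w.2 * hom B w.1 w.2 ≠ 0 := left_ne_zero_of_mul h3
    have hDt : (-(hom A w.1 w.2 + hom B w.1 w.2)) ^ 2 - 4 * (hom A w.1 w.2 * hom B w.1 w.2) ≠ 0 := by
      have : (-(hom A w.1 w.2 + hom B w.1 w.2)) ^ 2 - 4 * (hom A w.1 w.2 * hom B w.1 w.2) =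
        (hom A w.1 w.2 - hom B w.1 w.2) ^ 2 := by ring
      rw [this]
      exact pow_ne_zero 2 (right_ne_zero_of_mul h3)
    have hnf : NumberField (K G w) := by
      rw [hK w]
      exact nf _
    have h1 := rank_le hBt hDt (fun i => hom (G i) w.1 w.2) hG' univ (K G w) (hK w)
      (hom D w.1 w.2) hD'
    rw [← rank_eq (K G w) (hom A w.1 w.2) (hom B w.1 w.2) (hom D w.1 w.2)] at h1
    have h2 : R A B D G w ≤ ∑ T ∈ (univ : Finset (Fin k)).powerset,
        Module.finrank ℤ (EAB (hom A w.1 w.2 * (hom D w.1 w.2 * ∏ i ∈ T, hom (G i) w.1 w.2))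
      (hom B w.1 w.2 * (hom D w.1 w.2 * ∏ i ∈ T, hom (G i) w.1 w.2))).toAffine.Point := by
      refine h1.trans (le_of_eq (sum_congr rfl fun T _ => ?_))
      rw [← rank_eq ℚ (hom A w.1 w.2) (hom B w.1 w.2), rank_rat]
    calc ((2 : ℝ) ^ R A B D G w) ^ r ≤ ((2 : ℝ) ^ ∑ T ∈ (univ : Finset (Fin k)).powerset,
          Module.finrank ℤ (EAB (hom A w.1 w.2 * (hom D w.1 w.2 * ∏ i ∈ T, hom (G i) w.1 w.2))
      (hom B w.1 w.2 * (hom D w.1 w.2 * ∏ i ∈ T, hom (G i) w.1 w.2))).toAffine.Point) ^ r :=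
          pow_le_pow_left₀ (by positivity) (pow_le_pow_right₀ (by norm_num) h2) r
      _ ≤ _ := by
          have h4 := pow_sum_le (univ : Finset (Fin k)).powerset ⟨∅, empty_mem_powerset _⟩
            (fun T => Module.finrank ℤ (EAB (hom A w.1 w.2 * (hom D w.1 w.2 *
              ∏ i ∈ T, hom (G i) w.1 w.2))
              (hom B w.1 w.2 * (hom D w.1 w.2 * ∏ i ∈ T, hom (G i) w.1 w.2))).toAffine.Point) r
          rw [hcard] at h4
          exact h4
  refine ⟨∑ T ∈ (univ : Finset (Fin k)).powerset, CT T, fun X Y hX hY v hv u hu => ?_⟩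
  calc ∑ w ∈ Box A B D G u v X Y, ((2 : ℝ) ^ R A B D G w) ^ r
      ≤ ∑ w ∈ Box A B D G u v X Y, ∑ T ∈ (univ : Finset (Fin k)).powerset, Q T w := by
        refine sum_le_sum fun w hw => ?_
        unfold Box at hw
        have := (mem_filter.1 hw).2
        exact hpt w this.2.1 this.2.2
    _ = ∑ T ∈ (univ : Finset (Fin k)).powerset, ∑ w ∈ Box A B D G u v X Y, Q T w := sum_comm
    _ ≤ ∑ T ∈ (univ : Finset (Fin k)).powerset,
        CT T * (X * Y * (1 + Real.log X) ^ kap (r * 2 ^ k) A B) :=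
        sum_le_sum fun T _ => hCT T X Y hX hY v hv u hu
    _ = _ := by rw [← sum_mul]

end Pool.Agent.Results.MP_81dc49_nt.FieldsOfBinaryForms
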