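import Pool.Agent.U695.XM.Avg
import Pool.Agent.Results.MP_7cad78_nt.GaussianTwistRanks

/-!
# The average rank of the quadratic twists `y² = x³ - D² x` over `ℚ(i)`

Let `K = ℚ(i)`. For a squarefree Gaussian integer `D` let `E_D` be the quadratic twist `y² = x³ - D² x`
of the curve `y² = x³ - x`. It has complex multiplication by `ℤ[i]` over `K`, so that its rank over `K` is
even. Let `Family` be the set of the primary squarefree `D`: every squarefree ideal of `ℤ[i]` of odd norm has
exactly one primary generator. We order by the norm.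

A decomposition of `D` is an ordered pair `(d, d')` of primary elements with `D = d d'` such that `d'` is a
square modulo `d` and `d` is a square modulo `d'`. For `D ≠ 1` in the family their number is
`2 ^ (corank D + 1)`.

* THE FIRST MOMENT. The average number of the decompositions of the `D` in the family tends to `4`; the
  same is true for the `D` with norm `5` modulo `8` and for those with norm `1` modulo `8`.
* THE MEAN. The average of `corank D` tends to `mean = ∑ r law(r)`, `0.764 < mean < 0.765`, in the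
  family and in the two classes; here `law r = c / ((2 - 1) (4 - 1) ⋯ (2 ^ r - 1))`,
  `c = ∏_{i ≥ 0} (1 - 2 ^ (- 2 i - 1))`, is the limit law of `corank D`.
* THE AVERAGE RANK. The rank of `E_D(K)` is even, at most `2 corank D + 2`, and at most `2 corank D` if
  the norm of `D` is `5` modulo `8`. The limit superior of the average rank of `E_D(K)` is at most
  `2 mean + 1 < 2.53` in the family, at most `2 mean < 1.53` for norms `5` modulo `8` and at
  most `2 mean + 2 < 3.53` for norms `1` modulo `8`.
* LARGE RANKS. The limit superior of the average of `2 ^ (rank / 2)` is at most `3` in the family (`2` for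
  norms `5` modulo `8`, `4` for norms `1` modulo `8`).

The proof: the descent by `1 + i` and the exact law of the number of the decompositions are in
`MP_7cad78_nt.GaussianTwistRanks`. That law does not bound the average (the `D` with many decompositions
could be responsible for a positive part of it). New here: the first moment
(`Pool/Agent/U695/XM`), a sum over the factorizations `D = a b c e` of the quadratic symbols
`(a / e) (b / c)`; the estimates for bilinear sums and for multiplicative functions over `ℤ[i]` are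
from the library (`Pool/Agent/Y699`, files `Hyp`, `Hal2`, `Pr`).
-/

set_option autoImplicit false

open scoped Classical

namespace Pool.Agent.Results.MP_81dc49_nt.GaussianTwistAverages

open Filter NumberField
open Pool.Agent.Results.MP_7cad78_nt.GaussianTwistRanks
  (twist Primary SquareModulo decompositions Family count c law)

/-- the rank of `y² = x³ - D² x` over the field `K` with ring of integers `ℤ[i]` -/
noncomputable def rank {K : Type} [Field K] [NumberField K] [DecidableEq K]
    (e : GaussianInt ≃+* 𝓞 K) (D : GaussianInt) : ℕ :=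
  Module.finrank ℤ (twist e D).toAffine.Point

/-- one less than the logarithm in base two of the number of the decompositions -/
noncomputable def corank (D : GaussianInt) : ℕ := Nat.log 2 (decompositions D).ncard - 1

/-- the average of `f` over the elements of `S` of norm at most `X` -/
noncomputable def average (S : Set GaussianInt) (f : GaussianInt → ℝ) (X : ℕ) : ℝ :=
  (∑ᶠ (D : GaussianInt) (_ : D ∈ {D | D ∈ S ∧ D.norm ≤ X}), f D) / (count S X : ℝ)

/-- the elements of the family with norm `a` modulo `8` -/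
def Class (a : ℕ) : Set GaussianInt := {D | D ∈ Family ∧ D.norm % 8 = a}

/-- the mean of the limit law -/
noncomputable def mean : ℝ := ∑' r : ℕ, (r : ℝ) * law r

section proof
open Pool.Agent.U695.XG Pool.Agent.U695.XH Pool.Agent.U695.XM
open Pool.Agent.U695.XR.Dec (Dcp card_dcp nS_succ)
open Pool.Agent.Y699 (PS PD SB mem_SB)
open H385 (nrm)
open Pool.Agent.Results.MP_7cad78_nt.GaussianTwistRanks

theorem el_cl5 (D : GaussianInt) : D ∈ Class 5 ↔ NSf.El {5, 13} D := el_five D

theorem el_cl1 (D : GaussianInt) : D ∈ Class 1 ↔ NSf.El {1, 9} D := el_one D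

theorem set_eq {q : Finset ℕ} {S : Set GaussianInt} (hS : ∀ D, D ∈ S ↔ NSf.El q D) (X : ℕ) :
    {D | D ∈ S ∧ D.norm ≤ X} = ((A q X : Finset GaussianInt) : Set GaussianInt) := by
  ext D
  unfold A
  rw [Finset.mem_coe, Finset.mem_filter, mem_SB]
  constructor
  · rintro ⟨h1, h2⟩
    have h3 := (hS D).1 h1
    exact ⟨⟨(le_iff D X).1 h2, h3.1⟩, h3.2⟩
  · rintro ⟨⟨h1, h2⟩, h3⟩
    exact ⟨(hS D).2 ⟨h2, h3⟩, (le_iff D X).2 h1⟩

theorem avg_eq {q : Finset ℕ} {S : Set GaussianInt} (hS : ∀ D, D ∈ S ↔ NSf.El q D)
    (f : GaussianInt → ℝ) (X : ℕ) :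
    average S f X = (∑ D ∈ A q X, f D) / ((A q X).card : ℝ) := by
  unfold average
  rw [set_eq hS, finsum_mem_coe_finset, cnt hS, card_A]

theorem mem_A {q : Finset ℕ} {X : ℕ} {D : GaussianInt} (h : D ∈ A q X) : PS D ∧ nrm D % 16 ∈ q := by
  unfold A at h
  rw [Finset.mem_filter, mem_SB] at h
  exact ⟨h.1.2, h.2⟩

theorem dec_nS {D : GaussianInt} (hD : PS D) : (decompositions D).ncard = nS (PD D) := card_dcp hD

theorem corank_rr {D : GaussianInt} (hD : PS D) : corank D = rr (PD D) := by
  unfold corank rr
  rw [dec_nS hD]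

theorem t_first {q : Finset ℕ} {S : Set GaussianInt} (hS : ∀ D, D ∈ S ↔ NSf.El q D) (hm : Mom q) :
    Tendsto (average S fun D => ((decompositions D).ncard : ℝ)) atTop (nhds 4) := by
  refine hm.congr fun X => ?_
  rw [avg_eq hS]
  congr 1
  exact Finset.sum_congr rfl fun D hD => by rw [dec_nS (mem_A hD).1]

theorem t_mean {q : Finset ℕ} {S : Set GaussianInt} (hS : ∀ D, D ∈ S ↔ NSf.El q D) (hq : S_LOW q)
    (hm : Mom q) : Tendsto (average S fun D => (corank D : ℝ)) atTop (nhds mean) := by
  refine (tends_mu hq hm).congr fun X => ?_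
  rw [avg_eq hS]
  congr 1
  exact Finset.sum_congr rfl fun D hD => by rw [corank_rr (mem_A hD).1]

theorem mom_one : Mom {1, 9} := by
  refine mom_of low_one cl_Ph1 fun X n hn => ?_
  have h1 := mem_SB.1 hn
  have h2 := mod16 h1.2
  have e : Pool.Agent.Y699.Ind X n = 1 := by
    unfold Pool.Agent.Y699.Ind
    rw [if_pos ⟨h1.2, h1.1⟩]
  unfold Ph1
  rw [e, ph_eq hn]
  by_cases h : nrm n % 16 = 1 ∨ nrm n % 16 = 9
  · rw [if_neg, if_pos]
    · norm_num
    · simp only [Finset.mem_insert, Finset.mem_singleton]
      omega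
    · simp only [Finset.mem_insert, Finset.mem_singleton]
      omega
  · rw [if_pos, if_neg]
    · norm_num
    · simp only [Finset.mem_insert, Finset.mem_singleton]
      omega
    · simp only [Finset.mem_insert, Finset.mem_singleton]
      omega

theorem nonempty_of {D : GaussianInt} (hD : PS D) (h1 : D ≠ 1) : (PD D).Nonempty := by
  by_contra h3
  rw [Finset.not_nonempty_iff_eq_empty] at h3
  have h4 := hD.prod
  rw [h3, Finset.prod_empty] at h4
  exact h1 h4.symm

theorem ncard_eq {D : GaussianInt} (hD : PS D) (h1 : D ≠ 1) :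
    (decompositions D).ncard = 2 ^ (corank D + 1) := by
  obtain ⟨r, hr⟩ := nS_succ (nonempty_of hD h1)
  rw [corank_rr hD, rr_of hr, dec_nS hD, hr]

variable {K : Type} [Field K] [NumberField K] [DecidableEq K] (e : GaussianInt ≃+* 𝓞 K)

theorem r_five {D : GaussianInt} (hD : PS D) (h5 : D.norm % 8 = 5) : rank e D ≤ 2 * corank D := by
  have h1 : D ≠ 1 := by
    rintro rfl
    revert h5
    decide
  have h2 : nS (PD D) = 2 ^ (corank D + 1) := by rw [← dec_nS hD, ncard_eq hD h1]
  exact Pool.Agent.U695.XR.rank_le e hD h5 h2 rfl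

theorem r_one_D : rank e 1 = 0 := by
  have hD : PS (1 : GaussianInt) := Pool.Agent.Y699.PS_one
  have hp1 : PD (1 : GaussianInt) = ∅ := by
    rw [Finset.eq_empty_iff_forall_notMem]
    intro π hπ
    have h3 := (Pool.Agent.Y699.mem_PD one_ne_zero).1 hπ
    exact h3.1.pr.not_isUnit (isUnit_of_dvd_one h3.2)
  have h1 : nS (PD (1 : GaussianInt)) = 2 ^ 0 := by
    rw [hp1]
    unfold nS
    rw [pow_zero, Nat.card_eq_one_iff_unique]
    refine ⟨⟨fun a b => ?_⟩, ⟨⟨fun π => 0, fun π => ?_⟩⟩⟩
    · apply Subtype.ext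
      funext π
      exact absurd π.2 (Finset.notMem_empty _)
    · exact absurd π.2 (Finset.notMem_empty _)
  have h2 := Pool.Agent.U695.XR.rank_le_all e hD h1 rfl
  have h3 : rank e 1 ≤ 2 * 0 := h2
  omega

theorem r_all {D : GaussianInt} (hD : PS D) : rank e D ≤ 2 * corank D + 2 := by
  by_cases h1 : D = 1
  · rw [h1, r_one_D]
    exact Nat.zero_le _
  have h2 : nS (PD D) = 2 ^ (corank D + 1) := by rw [← dec_nS hD, ncard_eq hD h1]
  exact Pool.Agent.U695.XR.rank_le_all e hD h2 rfl

theorem m_five {D : GaussianInt} (hD : PS D) (h5 : D.norm % 8 = 5) :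
    (2 : ℝ) ^ (rank e D / 2) ≤ (1 / 2) * ((decompositions D).ncard : ℝ) := by
  have h1 : D ≠ 1 := by
    rintro rfl
    revert h5
    decide
  have h2 := r_five e hD h5
  rw [ncard_eq hD h1]
  push_cast
  rw [pow_succ]
  have h3 : (2 : ℝ) ^ (rank e D / 2) ≤ 2 ^ corank D := pow_le_pow_right₀ (by norm_num) (by omega)
  linarith

theorem m_all {D : GaussianInt} (hD : PS D) :
    (2 : ℝ) ^ (rank e D / 2) ≤ ((decompositions D).ncard : ℝ) := by
  by_cases h1 : D = 1
  · rw [h1, r_one_D, Nat.zero_div, pow_zero]
    have h2 : 0 < (decompositions 1).ncard := by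
      rw [dec_nS Pool.Agent.Y699.PS_one, Pool.Agent.U695.XR.Dec.nS_pow]
      positivity
    exact_mod_cast h2
  have h2 := r_all e hD
  rw [ncard_eq hD h1]
  push_cast
  exact pow_le_pow_right₀ (by norm_num) (by omega)

/-- comparison of averages over a class -/
theorem avg_le {q : Finset ℕ} {S : Set GaussianInt} (hS : ∀ D, D ∈ S ↔ NSf.El q D)
    {f g : GaussianInt → ℝ} (h : ∀ D, PS D → nrm D % 16 ∈ q → f D ≤ g D) (X : ℕ) :
    average S f X ≤ average S g X := by
  rw [avg_eq hS, avg_eq hS]
  exact div_le_div_of_nonneg_right (Finset.sum_le_sum fun D hD => h D (mem_A hD).1 (mem_A hD).2)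
    (Nat.cast_nonneg _)

theorem limsup_of {a : ℕ → ℝ} {b : ℕ → ℝ} {l : ℝ} (hb : Tendsto b atTop (nhds l))
    (h : ∀ᶠ X in atTop, a X ≤ b X) (ε : ℝ) (hε : 0 < ε) : ∀ᶠ X in atTop, a X ≤ l + ε := by
  filter_upwards [hb.eventually (gt_mem_nhds (show l < l + ε by linarith)), h] with X h1 h2
  linarith

theorem mod_five {D : GaussianInt} (h : nrm D % 16 ∈ ({5, 13} : Finset ℕ)) : D.norm % 8 = 5 := by
  have h2 := Pool.Agent.Y699.nrm_cast D
  simp only [Finset.mem_insert, Finset.mem_singleton] at h
  omega

/-- the two classes make the family -/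
theorem avg_split (f : GaussianInt → ℝ) (X : ℕ) (hX : 0 < ((A {5, 13} X).card : ℝ))
    (hX1 : 0 < ((A {1, 9} X).card : ℝ)) :
    average Family f X = average (Class 5) f X * ((count (Class 5) X : ℝ) / (count Family X : ℝ)) +
      average (Class 1) f X * ((count (Class 1) X : ℝ) / (count Family X : ℝ)) := by
  rw [avg_eq el_all, avg_eq el_cl5, avg_eq el_cl1, cnt el_cl5, cnt el_cl1, cnt el_all, ← card_A,
    ← card_A, ← card_A, div_mul_div_cancel₀ hX.ne', div_mul_div_cancel₀ hX1.ne', ← add_div]
  congr 1
  have h1 : A {1, 5, 9, 13} X = A {5, 13} X ∪ A {1, 9} X := by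
    ext D
    unfold A
    rw [Finset.mem_union, Finset.mem_filter, Finset.mem_filter, Finset.mem_filter]
    simp only [Finset.mem_insert, Finset.mem_singleton]
    tauto
  rw [h1, Finset.sum_union]
  rw [Finset.disjoint_left]
  intro D h2 h3
  have h4 := (mem_A h2).2
  have h5 := (mem_A h3).2
  simp only [Finset.mem_insert, Finset.mem_singleton] at h4 h5
  omega

theorem ev_pos {q : Finset ℕ} (hq : S_LOW q) : ∀ᶠ X : ℕ in atTop, 0 < ((A q X).card : ℝ) := by
  obtain ⟨c', X₀, hc', hlow⟩ := hq
  filter_upwards [eventually_ge_atTop X₀, eventually_ge_atTop 1] with X hX hX1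
  have hX0 : (0 : ℝ) < X := by exact_mod_cast hX1
  rw [card_A]
  exact lt_of_lt_of_le (by positivity) (hlow X hX)

/-- bounds for the two classes give a bound for the family -/
theorem t_two {f g5 g1 : GaussianInt → ℝ} {l5 l1 : ℝ}
    (h5 : ∀ X, average (Class 5) f X ≤ average (Class 5) g5 X)
    (h1 : ∀ X, average (Class 1) f X ≤ average (Class 1) g1 X)
    (t5 : Tendsto (average (Class 5) g5) atTop (nhds l5))
    (t1 : Tendsto (average (Class 1) g1) atTop (nhds l1)) (ε : ℝ) (hε : 0 < ε) :
    ∀ᶠ X in atTop, average Family f X ≤ (l5 + l1) / 2 + ε := by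
  have h6 := (t5.mul half_five).add (t1.mul half_one)
  have e1 : l5 * (1 / 2) + l1 * (1 / 2) = (l5 + l1) / 2 := by ring
  rw [e1] at h6
  refine limsup_of h6 ?_ ε hε
  filter_upwards [ev_pos NSf.low5, ev_pos low_one] with X p5 p1
  rw [avg_split f X p5 p1]
  have hr5 : (0 : ℝ) ≤ (count (Class 5) X : ℝ) / (count Family X : ℝ) := by positivity
  have hr1 : (0 : ℝ) ≤ (count (Class 1) X : ℝ) / (count Family X : ℝ) := by positivity
  exact add_le_add (mul_le_mul_of_nonneg_right (h5 X) hr5) (mul_le_mul_of_nonneg_right (h1 X) hr1)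

end proof

/-- **Main theorem.** -/
theorem result :
    (0.764 < mean ∧ mean < 0.765) ∧
    -- the number of the decompositions
    (∀ D ∈ Family, D ≠ 1 → (decompositions D).ncard = 2 ^ (corank D + 1)) ∧
    -- the first moment and the mean, in the family and in the two classes
    (∀ S : Set GaussianInt, (S = Family ∨ S = Class 5 ∨ S = Class 1) →
      Tendsto (average S fun D => ((decompositions D).ncard : ℝ)) atTop (nhds 4) ∧
      Tendsto (average S fun D => (corank D : ℝ)) atTop (nhds mean)) ∧
    -- the ranks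
    ∀ (K : Type) [Field K] [NumberField K] [DecidableEq K] (e : GaussianInt ≃+* 𝓞 K),
      (∀ D ∈ Family, Module.Finite ℤ (twist e D).toAffine.Point ∧ Even (rank e D) ∧
        rank e D ≤ 2 * corank D + 2 ∧ (D.norm % 8 = 5 → rank e D ≤ 2 * corank D)) ∧
      -- the average rank
      (∀ ε : ℝ, 0 < ε → ∀ᶠ X : ℕ in atTop,
        average Family (fun D => (rank e D : ℝ)) X ≤ 2 * mean + 1 + ε ∧
        average (Class 5) (fun D => (rank e D : ℝ)) X ≤ 2 * mean + ε ∧
        average (Class 1) (fun D => (rank e D : ℝ)) X ≤ 2 * mean + 2 + ε) ∧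
      -- large ranks
      ∀ ε : ℝ, 0 < ε → ∀ᶠ X : ℕ in atTop,
        average Family (fun D => (2 : ℝ) ^ (rank e D / 2)) X ≤ 3 + ε ∧
        average (Class 5) (fun D => (2 : ℝ) ^ (rank e D / 2)) X ≤ 2 + ε ∧
        average (Class 1) (fun D => (2 : ℝ) ^ (rank e D / 2)) X ≤ 4 + ε := by
  have f5 := t_first el_cl5 Pool.Agent.U695.XM.mom_five
  have f1 := t_first el_cl1 mom_one
  have c5 := t_mean el_cl5 Pool.Agent.U695.XG.NSf.low5 Pool.Agent.U695.XM.mom_five
  have c1 := t_mean el_cl1 Pool.Agent.Results.MP_7cad78_nt.GaussianTwistRanks.low_one mom_one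
  refine ⟨⟨Pool.Agent.U695.XM.mu_low, Pool.Agent.U695.XM.mu_up⟩,
    fun D hD h1 => ncard_eq
      (Pool.Agent.Results.MP_7cad78_nt.GaussianTwistRanks.ps_iff.2 hD) h1, ?_, ?_⟩
  · rintro S (rfl | rfl | rfl)
    · exact ⟨t_first Pool.Agent.Results.MP_7cad78_nt.GaussianTwistRanks.el_all
        Pool.Agent.U695.XM.mom_all,
        t_mean Pool.Agent.Results.MP_7cad78_nt.GaussianTwistRanks.el_all
          Pool.Agent.U695.XR.Cls.low_all Pool.Agent.U695.XM.mom_all⟩
    · exact ⟨f5, c5⟩
    · exact ⟨f1, c1⟩
  · intro K _ _ _ e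
    refine ⟨fun D hD => ?_, ?_, ?_⟩
    · have h1 := Pool.Agent.Results.MP_7cad78_nt.GaussianTwistRanks.ps_iff.2 hD
      obtain ⟨h3, h4⟩ := Pool.Agent.Results.MP_7cad78_nt.GaussianTwistRanks.even_rank e h1.ne
      exact ⟨h3, h4, r_all e h1, fun h5 => r_five e h1 h5⟩
    · -- the averages of the rank
      have g5 : ∀ X, average (Class 5) (fun D => (rank e D : ℝ)) X ≤
          average (Class 5) (fun D => 2 * (corank D : ℝ)) X := fun X =>
        avg_le el_cl5 (fun D hD hq => by exact_mod_cast r_five e hD (mod_five hq)) X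
      have g1 : ∀ X, average (Class 1) (fun D => (rank e D : ℝ)) X ≤
          average (Class 1) (fun D => 2 * (corank D : ℝ) + 2) X := fun X =>
        avg_le el_cl1 (fun D hD hq => by exact_mod_cast r_all e hD) X
      have t5 : Tendsto (average (Class 5) fun D => 2 * (corank D : ℝ)) atTop (nhds (2 * mean)) := by
        refine (c5.const_mul 2).congr fun X => ?_
        rw [avg_eq el_cl5, avg_eq el_cl5, ← Finset.mul_sum, mul_div_assoc]
      have t1 : Tendsto (average (Class 1) fun D => 2 * (corank D : ℝ) + 2) atTop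
          (nhds (2 * mean + 2)) := by
        refine ((c1.const_mul 2).add_const 2).congr' ?_
        filter_upwards [ev_pos Pool.Agent.Results.MP_7cad78_nt.GaussianTwistRanks.low_one] with X hX
        rw [avg_eq el_cl1, avg_eq el_cl1, Finset.sum_add_distrib, ← Finset.mul_sum, Finset.sum_const,
          nsmul_eq_mul, add_div, mul_div_assoc, mul_div_assoc, mul_comm _ ((2 : ℝ) / _),
          div_mul_cancel₀ _ hX.ne']
      intro ε hε
      have a5 := limsup_of t5 (Eventually.of_forall g5) ε hε
      have a1 := limsup_of t1 (Eventually.of_forall g1) ε hε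
      have aF := t_two g5 g1 t5 t1 ε hε
      filter_upwards [a5, a1, aF] with X b5 b1 bF
      exact ⟨by linarith, b5, b1⟩
    · -- large ranks
      have g5 : ∀ X, average (Class 5) (fun D => (2 : ℝ) ^ (rank e D / 2)) X ≤
          average (Class 5) (fun D => (1 / 2) * ((decompositions D).ncard : ℝ)) X := fun X =>
        avg_le el_cl5 (fun D hD hq => m_five e hD (mod_five hq)) X
      have g1 : ∀ X, average (Class 1) (fun D => (2 : ℝ) ^ (rank e D / 2)) X ≤
          average (Class 1) (fun D => ((decompositions D).ncard : ℝ)) X := fun X =>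
        avg_le el_cl1 (fun D hD hq => m_all e hD) X
      have t5 : Tendsto (average (Class 5) fun D => (1 / 2) * ((decompositions D).ncard : ℝ)) atTop
          (nhds ((1 / 2) * 4)) := by
        refine (f5.const_mul (1 / 2)).congr fun X => ?_
        rw [avg_eq el_cl5, avg_eq el_cl5, ← Finset.mul_sum, mul_div_assoc]
      intro ε hε
      have a5 := limsup_of t5 (Eventually.of_forall g5) ε hε
      have a1 := limsup_of f1 (Eventually.of_forall g1) ε hε
      have aF := t_two g5 g1 t5 f1 ε hε
      filter_upwards [a5, a1, aF] with X b5 b1 bF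
      exact ⟨by linarith, by linarith, b1⟩

end Pool.Agent.Results.MP_81dc49_nt.GaussianTwistAverages
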