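import Mathlib
import Pool.Agent.U150.XG.MqE

/-!
# All moments of the sizes of the Selmer groups, and of `2 ^ rank` over every multiquadratic field, of the
# successive prime twists of every member of the twist classes

Let `K = ℚ(√d : d ∈ S)` be any multiquadratic number field (`S` a finite set of nonzero integers; for example
`K = ℚ`), `M` the product of the elements of `S`, `E : y² = x³ + a x² + b x` with integers `a`, `b` such that neither
`b` nor `c = a² - 4 b` is a square, `E_N` the quadratic twist of `E` by `N` in the short form of the problem and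
`E_N^T` its twist by `∏_{d ∈ T} d` over `ℚ`, `T ⊆ S`. A prime is split if it is `1` modulo `8` and a nonzero square
modulo all the odd primes dividing `b c M`, and inert if it is odd, does not divide `M` and neither `b` nor `c` is a
square modulo it (the split and the inert primes of the twist of `E` by `M`, in the definitions of
`MP_6073f3_nt.SuccessivePrimeTwists`, which we use).

`D` is ANY (fixed) product of different split and inert primes. We twist `E_D` successively by primes
`p_k, …, p_0` in given residue classes of split or inert primes, the last one inert (`N = D p_k ⋯ p_0`), and take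
means over the primes `p_0` up to `X`, `X → ∞`, then over `p_1`, …, at last over `p_k`. Let `P` be the law of the
Markov chain `r → r - 1` with probability `1 - 2 ^ -r`, `r → r` and `r → r + 1` with probability `2 ^ -(r + 1)`, after
`t` steps, `t` the number of the split primes among `p_1, …, p_k`, starting with the law of the corank of the
explicit matrix of `D` plus a random diagonal matrix over the field with two elements, and
`μ(m) = ∑ 2 ^ (m r) P(r)`. Then for every `D`, every `T ⊆ S` and every `m`: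

* the iterated mean of the `m`-th power of the order of the Selmer group of the isogeny of degree two of `E_N^T`
  (and of the dual isogeny) exists and is `(#Sel(E^T)) ^ m μ(m)`;
* the iterated upper mean of `2 ^ (m (rank E_N^T(ℚ) + dim Ш(E_N^T/ℚ)[2]))` is at most `2 ^ (m s_T) μ(2 m)`, `s_T` the
  Selmer rank of `E^T`;
* the iterated upper mean of `2 ^ (m rank E_N(K))` is at most `2 ^ (m R₀) μ(2 ^ (|S| + 1) m)`, `R₀ = ∑ s_T`;
* `|μ(m) - L(m)| ≤ L(m) (2 ^ m - 1) 2 ^ (m n) / 2 ^ t`, `L(m) = ∏_{i < m} (1 + 2 ^ i)` (`2, 6, 30, 270, …`), `n` the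
  number of the split primes of `D`: for infinitely many split steps all the moments tend to `L(m)`. For example the
  mean order of the Selmer group of the isogeny tends to twice the order for `E`, for every `D`.

The proof of the last part: the normalized moments `μ_t(m) / L(m)` of the chain after `t` steps satisfy
`x_{t+1}(m) = 2 ^ -m x_t(m) + (1 - 2 ^ -m) x_t(m - 1)`.

Authors: helper150 (this file and `U150/XG`), helper79 (all the twists have one corank, ranks over multiquadratic
fields, `U79/MO`, `U79/TF`, definitions in `RanksOverMultiquadraticFields`), helper687 (the Markov chain of the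
symmetric matrices over the field with two elements, `U687/Q2`), helper115, helper171, helper295, helper439,
helper2, helper643, helper674, helper234, helper158, helper998, helper798, helper756, helper958, helper388,
helper796, helper739, helper80 (the descent for the class of the twists, projects GD and GE).
-/

set_option autoImplicit false

open scoped Classical ENNReal

namespace Pool.Agent.Results.MP_81dc49_nt.SelmerMomentsPrimeTwists

open Filter
open Pool.Agent.TH841.NF.D (rk)
open Pool.Agent.Results.MP_6073f3_nt.SuccessivePrimeTwists (Res Member Given lowerMean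
  upperMean split splitSteps chain)
open Pool.Agent.Results.MP_81dc49_nt.RanksOverMultiquadraticFields (E Sel s R₀ twist shaDim)

/-- the first coefficient of the twist of `y² = x³ + a x² + b x` by the product of `S` -/
def A (a : ℤ) (S : Finset ℤ) : ℤ := a * ∏ d ∈ S, d

/-- the second coefficient of the twist of `y² = x³ + a x² + b x` by the product of `S` -/
def B (b : ℤ) (S : Finset ℤ) : ℤ := b * (∏ d ∈ S, d) ^ 2

/-- `K` is the field generated by the square roots `r d` of the elements `d` of `S` -/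
def Generates (S : Finset ℤ) (K : Type) [Field K] [NumberField K] (r : ℤ → K) : Prop :=
  (∀ d ∈ S, r d ^ 2 = (d : K)) ∧ IntermediateField.adjoin ℚ (r '' (S : Set ℤ)) = ⊤

/-- the order of the Selmer group of the isogeny of degree two of the twist by `N` of
`y² = x³ + a x² + b x` -/
noncomputable def selSize (a b : ℤ) (N : ℕ) : ℕ := (Sel (a * N) (b * N ^ 2)).ncard

/-- the order of the Selmer group of the dual isogeny -/
noncomputable def dualSize (a b : ℤ) (N : ℕ) : ℕ :=
  (Sel (-2 * (a * N)) ((a * N) ^ 2 - 4 * (b * N ^ 2))).ncard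

/-- the exponential moment of the Markov chain; the law is zero outside of the range of the sum -/
noncomputable def chainMoment (a b : ℤ) (q : ℕ → ℕ) (k D m : ℕ) : ℝ :=
  ∑ r ∈ Finset.range ((split a b D).card + splitSteps a b q k + 1),
    (2 : ℝ) ^ (m * r) * chain a b q k D r

/-- the limit moments -/
noncomputable def L (m : ℕ) : ℝ := ∏ i ∈ Finset.range m, (1 + (2 : ℝ) ^ i)

/-- the iterated mean of `T` is `x`: the iterated lower and upper means are `x` -/
def Mean (a b : ℤ) (q : ℕ → ℕ) (T : ℕ → ℝ≥0∞) (k D : ℕ) (x : ℝ) : Prop :=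
  lowerMean a b q T (k + 1) D = ENNReal.ofReal x ∧ upperMean a b q T (k + 1) D = ENNReal.ofReal x

/-- **All moments of the Selmer groups and of `2 ^ rank` for the successive prime twists.** -/
theorem result (S : Finset ℤ) (hS : ∀ d ∈ S, d ≠ 0) (a b : ℤ) (hb : ¬ IsSquare b)
    (hc : ¬ IsSquare (a ^ 2 - 4 * b)) (q : ℕ → ℕ) (hq : Given (A a S) (B b S) q) :
    (∀ (k D : ℕ), Member (A a S) (B b S) D →
      Res (A a S) (B b S) (D * ∏ i ∈ Finset.range (k + 1), q i) → ∀ m : ℕ,
      (∀ T ⊆ S,
        Mean (A a S) (B b S) q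
          (fun N => (selSize (a * ∏ d ∈ T, d) (b * (∏ d ∈ T, d) ^ 2) N : ℝ≥0∞) ^ m) k D
          ((selSize (a * ∏ d ∈ T, d) (b * (∏ d ∈ T, d) ^ 2) 1 : ℝ) ^ m *
            chainMoment (A a S) (B b S) q k D m) ∧
        Mean (A a S) (B b S) q
          (fun N => (dualSize (a * ∏ d ∈ T, d) (b * (∏ d ∈ T, d) ^ 2) N : ℝ≥0∞) ^ m) k D
          ((dualSize (a * ∏ d ∈ T, d) (b * (∏ d ∈ T, d) ^ 2) 1 : ℝ) ^ m *
            chainMoment (A a S) (B b S) q k D m) ∧
        upperMean (A a S) (B b S) q (fun N => 2 ^ (m * (rk (twist a b (∏ d ∈ T, d) N) +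
            shaDim (twist a b (∏ d ∈ T, d) N)))) (k + 1) D ≤
          ENNReal.ofReal (2 ^ (m * s (a * ∏ d ∈ T, d) (b * (∏ d ∈ T, d) ^ 2)) *
            chainMoment (A a S) (B b S) q k D (2 * m))) ∧
      (∀ (K : Type) [Field K] [NumberField K] (r : ℤ → K), Generates S K r →
        upperMean (A a S) (B b S) q (fun N => 2 ^ (m * rk (E a b N K))) (k + 1) D ≤
          ENNReal.ofReal (2 ^ (m * R₀ a b S) *
            chainMoment (A a S) (B b S) q k D (2 ^ (S.card + 1) * m))) ∧
      |chainMoment (A a S) (B b S) q k D m - L m| ≤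
        L m * ((2 ^ m - 1) * 2 ^ (m * (split (A a S) (B b S) D).card) /
          2 ^ splitSteps (A a S) (B b S) q k)) ∧
    ((∃ᶠ i in atTop, Res (A a S) (B b S) (q i)) → ∀ D m : ℕ,
      Tendsto (fun k => chainMoment (A a S) (B b S) q k D m) atTop (nhds (L m))) := by
  have hM : (∏ d ∈ S, d) ≠ 0 := Finset.prod_ne_zero_iff.2 hS
  have hb' : ¬ IsSquare (B b S) := Pool.Agent.U150.XG.Mq.ns_b hb hM
  have hc' : ¬ IsSquare ((A a S) ^ 2 - 4 * B b S) := Pool.Agent.U150.XG.Mq.ns_c hc hM
  have hb0 : b ≠ 0 := by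
    rintro rfl
    exact hb ⟨0, by norm_num⟩
  have hc0 : a ^ 2 - 4 * b ≠ 0 := by
    intro h
    exact hc ⟨0, by rw [h]; norm_num⟩
  have hbd := fun (N : ℕ) (hN : Pool.Agent.U115.GE.Class (A a S) (B b S) N) =>
    Pool.Agent.U150.XG.Mq.bd (S := S) hb hc hS hN
  have hck : ∀ N : ℕ, Pool.Agent.U115.GE.Class (A a S) (B b S) N →
      Pool.Agent.U115.GE.cork (A a S) (B b S) N = Pool.Agent.U115.GE.cork a b N :=
    fun N hN => (hbd N hN).1
  have hof : ∀ (x y : ℕ), ENNReal.ofReal ((x : ℝ) * 2 ^ y) = (x : ℝ≥0∞) * 2 ^ y := by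
    intro x y
    rw [ENNReal.ofReal_mul (Nat.cast_nonneg _), ENNReal.ofReal_natCast,
      ENNReal.ofReal_pow (by norm_num)]
    norm_num
  have hpow : ∀ (c y m : ℕ), ((2 ^ y * c : ℕ) : ℝ≥0∞) ^ m =
      ENNReal.ofReal ((c : ℝ) ^ m * 2 ^ (m * y)) := by
    intro c y m
    have h1 := hof (c ^ m) (m * y)
    push_cast at h1 ⊢
    rw [h1, mul_pow, ← pow_mul, mul_comm y m, mul_comm]
  have hdist : ∀ k D m : ℕ, |chainMoment (A a S) (B b S) q k D m - L m| ≤
      L m * ((2 ^ m - 1) * 2 ^ (m * (split (A a S) (B b S) D).card) /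
        2 ^ splitSteps (A a S) (B b S) q k) := fun k D m =>
    Pool.Agent.U150.XG.Mq.cmom_dist (a := A a S) (b := B b S) q k D m
  refine ⟨fun k D hD hR m => ⟨fun T hT => ?_, fun K _ _ r hr => ?_, hdist k D m⟩,
    fun hF D m => ?_⟩
  · have hdv : ∏ d ∈ T, d ∣ ∏ d ∈ S, d := Finset.prod_dvd_prod_of_subset T S _ hT
    have hT0 : ∏ d ∈ T, d ≠ 0 := Finset.prod_ne_zero_iff.2 fun d hd => hS d (hT hd)
    have hsel := fun (N : ℕ) (hN : Pool.Agent.U115.GE.Class (A a S) (B b S) N) =>
      Pool.Agent.U150.XG.Mq.sel_m hb hc hM hdv hN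
    refine ⟨?_, ?_, ?_⟩
    · refine Pool.Agent.U150.XG.Mq.eq_exp hb' hc' hq _ _ (by positivity) m (fun N hN => ?_) k hD hR
      have e1 : selSize (a * ∏ d ∈ T, d) (b * (∏ d ∈ T, d) ^ 2) N =
          2 ^ Pool.Agent.U115.GE.cork a b N * (Sel (a * ∏ d ∈ T, d) (b * (∏ d ∈ T, d) ^ 2)).ncard :=
        (hsel N hN).1
      have e2 : selSize (a * ∏ d ∈ T, d) (b * (∏ d ∈ T, d) ^ 2) 1 =
          (Sel (a * ∏ d ∈ T, d) (b * (∏ d ∈ T, d) ^ 2)).ncard := by
        unfold selSize
        rw [Nat.cast_one, mul_one, one_pow, mul_one]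
      rw [e1, e2, hpow, hck N hN]
    · refine Pool.Agent.U150.XG.Mq.eq_exp hb' hc' hq _ _ (by positivity) m (fun N hN => ?_) k hD hR
      have e1 : dualSize (a * ∏ d ∈ T, d) (b * (∏ d ∈ T, d) ^ 2) N =
          2 ^ Pool.Agent.U115.GE.cork a b N * (Sel (-2 * (a * ∏ d ∈ T, d))
            ((a * ∏ d ∈ T, d) ^ 2 - 4 * (b * (∏ d ∈ T, d) ^ 2))).ncard := (hsel N hN).2
      have e2 : dualSize (a * ∏ d ∈ T, d) (b * (∏ d ∈ T, d) ^ 2) 1 =
          (Sel (-2 * (a * ∏ d ∈ T, d))
            ((a * ∏ d ∈ T, d) ^ 2 - 4 * (b * (∏ d ∈ T, d) ^ 2))).ncard := by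
        unfold dualSize
        rw [Nat.cast_one, mul_one, one_pow, mul_one]
      rw [e1, e2, hpow, hck N hN]
    · refine Pool.Agent.U150.XG.Mq.up_exp hb' hc' hq _ _ (by positivity) (2 * m)
        (fun N hN => ?_) k hD hR
      obtain ⟨u1, u2, u3, u4⟩ := Pool.Agent.U79.MO.two_sided_m hb hc hM hdv hN
      obtain ⟨v1, v2, v3, v4⟩ :=
        Pool.Agent.Results.MP_81dc49_nt.RanksOverMultiquadraticFields.twist_inv
          (a := a) (b := b) hb0 hc0 hT0 hN.1.ne_zero
      unfold Pool.Agent.U79.MO.ds at u3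
      rw [v1, v2] at u3
      have h1 : rk (twist a b (∏ d ∈ T, d) N) + shaDim (twist a b (∏ d ∈ T, d) N) ≤
          s (a * ∏ d ∈ T, d) (b * (∏ d ∈ T, d) ^ 2) + 2 * Pool.Agent.U115.GE.cork a b N := u3
      have h2 := Nat.mul_le_mul_left m h1
      have h3 := hof (2 ^ (m * s (a * ∏ d ∈ T, d) (b * (∏ d ∈ T, d) ^ 2)))
        (2 * m * Pool.Agent.U115.GE.cork a b N)
      push_cast at h3
      rw [hck N hN, h3, ← pow_add]
      refine pow_le_pow_right₀ (by norm_num) (h2.trans (le_of_eq ?_))
      ring
  · refine Pool.Agent.U150.XG.Mq.up_exp hb' hc' hq _ _ (by positivity) (2 ^ (S.card + 1) * m)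
      (fun N hN => ?_) k hD hR
    have h1 := (hbd N hN).2.2 K r hr.1 hr.2
    have h2 := Nat.mul_le_mul_left m h1
    have h3 := hof (2 ^ (m * R₀ a b S)) (2 ^ (S.card + 1) * m * Pool.Agent.U115.GE.cork a b N)
    push_cast at h3
    rw [hck N hN, h3, ← pow_add]
    refine pow_le_pow_right₀ (by norm_num) (h2.trans (le_of_eq ?_))
    ring
  · have hst := Pool.Agent.Results.MP_6073f3_nt.SuccessivePrimeTwists.steps_tendsto q hF
    set Bn : ℝ := L m * ((2 ^ m - 1) * 2 ^ (m * (split (A a S) (B b S) D).card)) with hBn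
    have h2 : Tendsto (fun k => Bn / 2 ^ splitSteps (A a S) (B b S) q k) atTop (nhds 0) := by
      have h3 : Tendsto (fun m : ℕ => Bn / 2 ^ m) atTop (nhds 0) := by
        have h4 := (tendsto_pow_atTop_nhds_zero_of_lt_one (r := (1 / 2 : ℝ)) (by norm_num)
          (by norm_num)).const_mul Bn
        rw [mul_zero] at h4
        refine h4.congr fun m => ?_
        rw [one_div, inv_pow]
        ring
      exact h3.comp hst
    rw [tendsto_iff_norm_sub_tendsto_zero]
    refine squeeze_zero (fun k => norm_nonneg _) (fun k => ?_) h2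
    rw [Real.norm_eq_abs]
    refine (hdist k D m).trans (le_of_eq ?_)
    rw [hBn]
    ring

end Pool.Agent.Results.MP_81dc49_nt.SelmerMomentsPrimeTwists
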